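import Pool.Agent.H14.Jordan.Cross

set_option autoImplicit false
open Set Topology Filter Complex
open scoped Real

/-! The exterior of a Jordan domain is connected, and its frontier is the whole curve (so a Jordan
curve which bounds a Jordan domain has exactly two complementary components). -/

namespace Pool.Agent.H14.Jordan

/-- Joining by a preconnected set. -/
lemma joinedIn_of_preconnected {K S : Set ℂ} (hK : IsClosed K) (hS : IsPreconnected S)
    (hSK : Disjoint S K) {z w : ℂ} (hz : z ∈ S) (hw : w ∈ S) : JoinedIn Kᶜ z w := by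
  have hop : IsOpen (connectedComponentIn Kᶜ z) := hK.isOpen_compl.connectedComponentIn
  have hzK : z ∈ Kᶜ := disjoint_left.1 hSK hz
  have h4 : IsConnected (connectedComponentIn Kᶜ z) := isConnected_connectedComponentIn_iff.2 hzK
  have h3 := hS.subset_connectedComponentIn hz (fun x hx => disjoint_left.1 hSK hx)
  exact ((hop.isConnected_iff_isPathConnected.1 h4).joinedIn z (mem_connectedComponentIn hzK) w
    (h3 hw)).mono (connectedComponentIn_subset _ _)

/-- For closed sets: joined in the complement means in the same component of the complement. -/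
lemma joinedIn_compl_iff {K : Set ℂ} (hK : IsClosed K) {z w : ℂ} :
    JoinedIn Kᶜ z w ↔ w ∈ connectedComponentIn Kᶜ z := by
  constructor
  · intro h
    obtain ⟨γ, hγ⟩ := h
    refine (isPreconnected_range γ.continuous).subset_connectedComponentIn ⟨0, γ.source⟩ ?_
      ⟨1, γ.target⟩
    rintro _ ⟨t, rfl⟩; exact hγ t
  · intro hw
    by_cases hz : z ∈ Kᶜ
    · exact joinedIn_of_preconnected hK isPreconnected_connectedComponentIn
        (disjoint_left.2 fun x hx => connectedComponentIn_subset _ _ hx)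
        (mem_connectedComponentIn hz) hw
    · rw [connectedComponentIn_eq_empty hz] at hw
      exact hw.elim

/-- Janiszewski's theorem for components. -/
theorem janiszewski_component {A B : Set ℂ} (hA : IsCompact A) (hB : IsCompact B)
    (hAB : IsPreconnected (A ∩ B)) {z w : ℂ} (h1 : w ∈ connectedComponentIn Aᶜ z)
    (h2 : w ∈ connectedComponentIn Bᶜ z) : w ∈ connectedComponentIn (A ∪ B)ᶜ z := by
  rw [← joinedIn_compl_iff (hA.isClosed.union hB.isClosed)]
  exact janiszewski hA hB hAB ((joinedIn_compl_iff hA.isClosed).2 h1)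
    ((joinedIn_compl_iff hB.isClosed).2 h2)

/-- Janiszewski's theorem, with preconnected sets joining the points. -/
theorem janiszewski_preconnected {A B S T : Set ℂ} (hA : IsCompact A) (hB : IsCompact B)
    (hAB : IsPreconnected (A ∩ B)) {z w : ℂ} (hS : IsPreconnected S) (hT : IsPreconnected T)
    (hSA : Disjoint S A) (hTB : Disjoint T B) (hzS : z ∈ S) (hwS : w ∈ S) (hzT : z ∈ T)
    (hwT : w ∈ T) : ∃ R, IsPreconnected R ∧ Disjoint R (A ∪ B) ∧ z ∈ R ∧ w ∈ R := by
  obtain ⟨p, hp⟩ := janiszewski hA hB hAB (joinedIn_of_preconnected hA.isClosed hS hSA hzS hwS)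
    (joinedIn_of_preconnected hB.isClosed hT hTB hzT hwT)
  refine ⟨range p, isPreconnected_range p.continuous, ?_, ⟨0, p.source⟩, ⟨1, p.target⟩⟩
  rw [disjoint_left]
  rintro _ ⟨t, rfl⟩; exact hp t

/-- Two connected sets which touch each other at a point off the closed set `X` are joined. -/
lemma joined_via {X U U' : Set ℂ} (hX : IsClosed X) (hU : IsPreconnected U)
    (hU' : IsPreconnected U') (hUX : Disjoint U X) (hU'X : Disjoint U' X) {y : ℂ} (hy : y ∉ X)
    (h1 : y ∈ closure U) (h2 : y ∈ closure U') {z w : ℂ} (hz : z ∈ U) (hw : w ∈ U') :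
    JoinedIn Xᶜ z w := by
  obtain ⟨r, hr, hball⟩ := Metric.isOpen_iff.1 hX.isOpen_compl y hy
  obtain ⟨v1, hv1b, hv1⟩ := mem_closure_iff.1 h1 _ Metric.isOpen_ball (Metric.mem_ball_self hr)
  obtain ⟨e1, he1b, he1⟩ := mem_closure_iff.1 h2 _ Metric.isOpen_ball (Metric.mem_ball_self hr)
  have hpre : IsPreconnected (U ∪ Metric.ball y r ∪ U') := by
    refine IsPreconnected.union e1 (Or.inr he1b) he1 ?_ hU'
    exact IsPreconnected.union v1 hv1 hv1b hU (convex_ball y r).isPreconnected
  refine joinedIn_of_preconnected hX hpre ?_ (Or.inl (Or.inl hz)) (Or.inr hw)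
  rw [disjoint_left]
  rintro x ((hx | hx) | hx) hxX
  · exact disjoint_left.1 hUX hx hxX
  · exact hball hx hxX
  · exact disjoint_left.1 hU'X hx hxX

/-- **Accessible points are dense**: near every frontier point of an open set there is a frontier
point which is the end of a straight segment in the set. -/
lemma exists_access {U : Set ℂ} (hU : IsOpen U) {ξ : ℂ} (hξ : ξ ∈ frontier U) {δ : ℝ}
    (hδ : 0 < δ) : ∃ z ∈ U, ∃ ζ ∈ frontier U, ‖z - ξ‖ < δ ∧ ‖ζ - ξ‖ < δ ∧ 
      ∀ θ ∈ Ico (0 : ℝ) 1, z + θ * (ζ - z) ∈ U := by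
  obtain ⟨z, hzb, hz⟩ := mem_closure_iff.1 hξ.1 _ Metric.isOpen_ball
    (Metric.mem_ball_self (show 0 < δ / 2 by positivity))
  rw [Metric.mem_ball, dist_eq_norm] at hzb
  obtain ⟨ζ, hζ, hmin⟩ := isClosed_frontier.exists_infDist_eq_dist ⟨ξ, hξ⟩ z
  have hzζ : ‖z - ζ‖ ≤ ‖z - ξ‖ := by
    rw [← dist_eq_norm, ← hmin, ← dist_eq_norm]
    exact Metric.infDist_le_dist_of_mem hξ
  refine ⟨z, hz, ζ, hζ, by linarith, ?_, ?_⟩
  · have h1 : ‖ζ - ξ‖ ≤ ‖ζ - z‖ + ‖z - ξ‖ := by
      have := norm_add_le (ζ - z) (z - ξ)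
      rwa [sub_add_sub_cancel] at this
    rw [norm_sub_rev] at hzζ
    linarith
  · intro θ hθ
    have hzζ0 : 0 < ‖ζ - z‖ := by
      rw [norm_pos_iff, sub_ne_zero]
      rintro rfl
      rw [hU.frontier_eq] at hζ
      exact hζ.2 hz
    have h1 : Metric.ball z ‖ζ - z‖ ⊆ U := by
      refine subset_of_frontier (convex_ball _ _).isPreconnected ?_
        ⟨z, Metric.mem_ball_self hzζ0, hz⟩
      rw [disjoint_left]
      intro y hy hyb
      rw [Metric.mem_ball, dist_comm] at hyb
      have h2 := Metric.infDist_le_dist_of_mem (x := z) hy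
      rw [hmin, dist_eq_norm z ζ, norm_sub_rev] at h2
      linarith
    apply h1
    rw [Metric.mem_ball, dist_eq_norm, add_sub_cancel_left, norm_mul, norm_real,
      Real.norm_of_nonneg hθ.1]
    nlinarith [hθ.2]

/-- A connected open set contains, up to its end points, a continuum between two different frontier
points. -/
lemma exists_link {U : Set ℂ} (hUo : IsOpen U) (hUc : IsConnected U) {ξ1 ξ2 : ℂ}
    (h1 : ξ1 ∈ frontier U) (h2 : ξ2 ∈ frontier U) (hne : ξ1 ≠ ξ2) :
    ∃ x y : ℂ, ∃ c : Set ℂ, x ∈ frontier U ∧ y ∈ frontier U ∧ x ≠ y ∧ x ∈ c ∧ y ∈ c ∧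
      c ⊆ U ∪ {x, y} ∧ IsCompact c ∧ IsPreconnected c := by
  have hd : 0 < ‖ξ1 - ξ2‖ := norm_pos_iff.2 (sub_ne_zero.2 hne)
  obtain ⟨z, hz, ζ, hζ, -, hζ1, hseg⟩ := exists_access hUo h1 (show 0 < ‖ξ1 - ξ2‖ / 2 by positivity)
  obtain ⟨z', hz', ζ', hζ', -, hζ1', hseg'⟩ :=
    exists_access hUo h2 (show 0 < ‖ξ1 - ξ2‖ / 2 by positivity)
  obtain ⟨p, hp⟩ := (hUo.isConnected_iff_isPathConnected.1 hUc).joinedIn z hz z' hz'
  have hs : ∀ z ζ : ℂ, (∀ θ ∈ Ico (0 : ℝ) 1, z + θ * (ζ - z) ∈ U) → segment ℝ z ζ ⊆ U ∪ {ζ} := by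
    intro z ζ h y hy
    rw [segment_eq_image'] at hy
    obtain ⟨θ, hθ, rfl⟩ := hy
    rcases eq_or_lt_of_le hθ.2 with h3 | h3
    · right; rw [h3]; simp
    · left; exact h θ ⟨hθ.1, h3⟩
  refine ⟨ζ, ζ', segment ℝ z ζ ∪ range p ∪ segment ℝ z' ζ', hζ, hζ', ?_, ?_, ?_, ?_, ?_, ?_⟩
  · rintro rfl
    have h3 : ‖ξ1 - ξ2‖ ≤ ‖ξ1 - ζ‖ + ‖ζ - ξ2‖ := by
      have := norm_add_le (ξ1 - ζ) (ζ - ξ2)
      rwa [sub_add_sub_cancel] at this
    rw [norm_sub_rev ξ1 ζ] at h3
    linarith
  · exact Or.inl (Or.inl (right_mem_segment ℝ z ζ))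
  · exact Or.inr (right_mem_segment ℝ z' ζ')
  · rintro y ((hy | ⟨t, rfl⟩) | hy)
    · rcases hs z ζ hseg hy with h3 | h3
      · exact Or.inl h3
      · exact Or.inr (Or.inl h3)
    · exact Or.inl (hp t)
    · rcases hs z' ζ' hseg' hy with h3 | h3
      · exact Or.inl h3
      · exact Or.inr (Or.inr h3)
  · refine ((?_ : IsCompact (segment ℝ z ζ)).union (isCompact_range p.continuous)).union ?_
    · rw [segment_eq_image']
      exact isCompact_Icc.image (by fun_prop)
    · rw [segment_eq_image']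
      exact isCompact_Icc.image (by fun_prop)
  · refine IsPreconnected.union z' (Or.inr ⟨1, p.target⟩) (left_mem_segment ℝ z' ζ') ?_
      (convex_segment z' ζ').isPreconnected
    exact IsPreconnected.union z (left_mem_segment ℝ z ζ) ⟨0, p.source⟩
      (convex_segment z ζ).isPreconnected (isPreconnected_range p.continuous)

namespace IsLoop
variable {ρ : ℝ → ℂ} (h : IsLoop ρ)
include h

lemma not_const : ∃ s t, ρ s ≠ ρ t := by
  refine ⟨0, 1, fun hc => ?_⟩
  have := h.injOn (a := 0) (b := 1) (by linarith [Real.pi_gt_three])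
    ⟨le_rfl, zero_le_one⟩ ⟨zero_le_one, le_rfl⟩ hc
  exact zero_ne_one this

/-- **There are no three different open connected sets with frontier the Jordan curve.** -/
theorem not_three {U1 U2 U3 : Set ℂ} (o1 : IsOpen U1) (o2 : IsOpen U2) (o3 : IsOpen U3)
    (c1 : IsConnected U1) (c2 : IsConnected U2) (c3 : IsConnected U3)
    (f1 : frontier U1 = range ρ) (f2 : frontier U2 = range ρ) (f3 : frontier U3 = range ρ)
    (d12 : Disjoint U1 U2) (d13 : Disjoint U1 U3) (d23 : Disjoint U2 U3) : False := by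
  obtain ⟨s0, t0, hst⟩ := h.not_const
  obtain ⟨x, y, c, hx, hy, hxy, hxc, hyc, hcs, hcc, hcp⟩ := exists_link o1 c1
    (by rw [f1]; exact ⟨s0, rfl⟩) (by rw [f1]; exact ⟨t0, rfl⟩) hst
  rw [f1] at hx hy
  obtain ⟨a, rfl⟩ := hx
  obtain ⟨b', rfl⟩ := hy
  obtain ⟨b, ⟨hab, hba⟩, hbb⟩ := h.exists_mem_Ico a b'
  rw [← hbb] at hxy hyc hcs
  have hab : a < b := lt_of_le_of_ne hab fun he => hxy (by rw [he])
  have hdis : ∀ {U : Set ℂ}, IsOpen U → frontier U = range ρ → Disjoint U (range ρ) := by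
    intro U ho hf
    rw [← hf]; exact frontier_disjoint_open ho
  have hA : IsCompact (ρ '' Icc a b) := h.arc_compact _ _
  have hB : IsCompact (ρ '' Icc b (a + 2 * π)) := h.arc_compact _ _
  have hinter := h.inter_arcs hab hba
  have hba' : a + 2 * π < b + 2 * π := by linarith
  -- two middle points
  set s := (a + b) / 2 with hs
  set t := (b + (a + 2 * π)) / 2 with ht
  have hs' : s ∈ Ioo a b := ⟨by linarith, by linarith⟩
  have ht' : t ∈ Ioo b (a + 2 * π) := ⟨by linarith, by linarith⟩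
  have hsB : ρ s ∉ ρ '' Icc b (a + 2 * π) := by
    intro hx
    have h3 : ρ s ∈ ρ '' Icc a b ∩ ρ '' Icc b (a + 2 * π) :=
      ⟨⟨s, Ioo_subset_Icc_self hs', rfl⟩, hx⟩
    rw [hinter] at h3
    rcases h3 with h3 | h3
    · exact hs'.1.ne' (h.injOn hba (Ioo_subset_Icc_self hs') (left_mem_Icc.2 hab.le) h3)
    · exact hs'.2.ne (h.injOn hba (Ioo_subset_Icc_self hs') (right_mem_Icc.2 hab.le) h3)
  have htA : ρ t ∉ ρ '' Icc a b := by
    intro hx
    have h3 : ρ t ∈ ρ '' Icc a b ∩ ρ '' Icc b (a + 2 * π) :=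
      ⟨hx, ⟨t, Ioo_subset_Icc_self ht', rfl⟩⟩
    rw [hinter] at h3
    rcases h3 with h3 | h3
    · rw [← h.add_two_pi a] at h3
      exact ht'.2.ne (h.injOn hba' (Ioo_subset_Icc_self ht') (right_mem_Icc.2 hba.le) h3)
    · exact ht'.1.ne' (h.injOn hba' (Ioo_subset_Icc_self ht') (left_mem_Icc.2 hba.le) h3)
  have hcρ : ∀ x ∈ c, x ∈ range ρ → x ∈ ({ρ a, ρ b} : Set ℂ) := by
    intro x hx hxρ
    rcases hcs hx with h3 | h3
    · exact absurd hxρ (disjoint_left.1 (hdis o1 f1) h3)
    · exact h3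
  have hsc : ρ s ∉ c := fun hx => by
    have h3 := hcρ _ hx ⟨s, rfl⟩
    rw [← hinter] at h3
    exact hsB h3.2
  have htc : ρ t ∉ c := fun hx => by
    have h3 := hcρ _ hx ⟨t, rfl⟩
    rw [← hinter] at h3
    exact htA h3.1
  obtain ⟨z, hz⟩ := c2.nonempty
  obtain ⟨w, hw⟩ := c3.nonempty
  have hUc : ∀ {U : Set ℂ}, IsOpen U → frontier U = range ρ → Disjoint U1 U →
      ∀ I : Set ℝ, Disjoint U (c ∪ ρ '' I) := by
    intro U ho hf hd I
    rw [disjoint_left]
    rintro x hxU (hx | ⟨r, -, rfl⟩)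
    · rcases hcs hx with h3 | h3
      · exact disjoint_left.1 hd h3 hxU
      · rcases h3 with h3 | h3
        · rw [h3] at hxU; exact disjoint_left.1 (hdis ho hf) hxU ⟨_, rfl⟩
        · rw [h3] at hxU; exact disjoint_left.1 (hdis ho hf) hxU ⟨_, rfl⟩
    · exact disjoint_left.1 (hdis ho hf) hxU ⟨_, rfl⟩
  have hcl : ∀ {U : Set ℂ}, frontier U = range ρ → ∀ r, ρ r ∈ closure U := by
    intro U hf r
    have : ρ r ∈ frontier U := by rw [hf]; exact ⟨r, rfl⟩
    exact this.1
  have j1 : JoinedIn (c ∪ ρ '' Icc b (a + 2 * π))ᶜ z w :=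
    joined_via (hcc.isClosed.union hB.isClosed) c2.isPreconnected c3.isPreconnected
      (hUc o2 f2 d12 _) (hUc o3 f3 d13 _) (y := ρ s) (fun hx => hx.elim hsc hsB) (hcl f2 s)
      (hcl f3 s) hz hw
  have j2 : JoinedIn (c ∪ ρ '' Icc a b)ᶜ z w :=
    joined_via (hcc.isClosed.union hA.isClosed) c2.isPreconnected c3.isPreconnected
      (hUc o2 f2 d12 _) (hUc o3 f3 d13 _) (y := ρ t) (fun hx => hx.elim htc htA) (hcl f2 t)
      (hcl f3 t) hz hw
  have hends : {ρ a, ρ b} ⊆ c := by
    rintro x (rfl | rfl)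
    · exact hxc
    · exact hyc
  have hint : (c ∪ ρ '' Icc b (a + 2 * π)) ∩ (c ∪ ρ '' Icc a b) = c := by
    rw [← union_inter_distrib_left, inter_comm, hinter, union_eq_left]
    exact hends
  have j3 := janiszewski (hcc.union hB) (hcc.union hA) (by rw [hint]; exact hcp) j1 j2
  have j4 : JoinedIn (frontier U2 ∪ ∅)ᶜ z w := by
    refine j3.mono ?_
    rw [compl_subset_compl, f2, union_empty, h.range_eq_union hab.le hba.le]
    exact union_subset (subset_union_right.trans subset_union_right)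
      (subset_union_right.trans subset_union_left)
  exact disjoint_left.1 d23 (joinedIn_of_frontier hz j4).target_mem.1 hw

end IsLoop

namespace IsJD
variable {D : Set ℂ} {ρ : ℝ → ℂ} (h : IsJD D ρ)
include h

lemma closure_eq : closure D = D ∪ range ρ := by
  rw [closure_eq_self_union_frontier, h.fr]

/-- **The exterior of a Jordan domain is connected and its frontier is the curve.** -/
theorem exterior : IsOpen (closure D)ᶜ ∧ IsConnected (closure D)ᶜ ∧
    frontier (closure D)ᶜ = range ρ ∧ ¬ Bornology.IsBounded (closure D)ᶜ := by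
  obtain ⟨E, hEo, hEc, hED, hEρ, hEf, hEb⟩ := h.exists_ext
  have hcl : IsClosed (range ρ) := h.loop.isCompact_range.isClosed
  suffices hE : (closure D)ᶜ = E by
    rw [hE]; exact ⟨hEo, hEc, hEf, hEb⟩
  rw [h.closure_eq]
  apply Subset.antisymm
  · intro x hx
    have hxD : x ∉ D := fun hx' => hx (Or.inl hx')
    have hxρ : x ∉ range ρ := fun hx' => hx (Or.inr hx')
    set U := connectedComponentIn (range ρ)ᶜ x with hU
    have hxU : x ∈ U := mem_connectedComponentIn hxρ
    have hUo : IsOpen U := hcl.isOpen_compl.connectedComponentIn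
    have hUc : IsConnected U := isConnected_connectedComponentIn_iff.2 hxρ
    have hUd : Disjoint U (range ρ) :=
      disjoint_left.2 fun y hy => connectedComponentIn_subset _ _ hy
    have hUf : frontier U = range ρ :=
      h.loop.frontier_eq ⟨x, hxU⟩ hUd (frontier_component hcl x)
    by_contra hxE
    have hUD : Disjoint D U := by
      rw [disjoint_left]
      intro y hyD hyU
      exact hxD (subset_of_frontier hUc.isPreconnected (by rw [h.fr]; exact hUd.symm)
        ⟨y, hyU, hyD⟩ hxU)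
    have hUE : Disjoint U E := by
      rw [disjoint_left]
      intro y hyU hyE
      exact hxE (subset_of_frontier hUc.isPreconnected (by rw [hEf]; exact hUd.symm)
        ⟨y, hyU, hyE⟩ hxU)
    exact h.loop.not_three h.isOpen hUo hEo h.conn hUc hEc h.fr hUf hEf hUD hED.symm hUE
  · rintro x hx (hx' | hx')
    · exact disjoint_left.1 hED hx hx'
    · exact disjoint_left.1 hEρ hx hx'

/-- The complement of a Jordan domain is connected. -/
theorem compl_connected : IsConnected Dᶜ := by
  obtain ⟨-, hc, hf, -⟩ := h.exterior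
  refine hc.subset_closure (compl_subset_compl.2 subset_closure) ?_
  intro x hx
  by_cases hxc : x ∈ closure D
  · have : x ∈ frontier (closure D)ᶜ := by
      rw [hf, ← h.fr, h.isOpen.frontier_eq]
      exact ⟨hxc, hx⟩
    exact this.1
  · exact subset_closure hxc

/-- The frontier of the domain lies in the closure of the exterior. -/
theorem frontier_subset_closure_exterior : frontier D ⊆ closure (closure D)ᶜ := by
  rw [h.fr, ← h.exterior.2.2.1]
  exact frontier_subset_closure

/-- A closed curve in `D` (or any compact subset of `D`) encloses only points of `D`. -/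
theorem joined_outside {K : Set ℂ} (hK : IsClosed K) (hKD : K ⊆ D) {z w : ℂ} (hz : z ∉ D)
    (hw : w ∉ D) : JoinedIn Kᶜ z w :=
  joinedIn_of_preconnected hK h.compl_connected.isPreconnected
    (disjoint_left.2 fun _ hx hx' => hx (hKD hx')) hz hw

/-- A bounded open set whose frontier is in `D` is contained in `D`. -/
theorem subset_of_frontier_subset {V : Set ℂ} (hVb : Bornology.IsBounded V) (hf : frontier V ⊆ D) :
    V ⊆ D := by
  by_contra hc
  rw [not_subset] at hc
  obtain ⟨x, hxV, hxD⟩ := hc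
  have h1 : Dᶜ ⊆ V := subset_of_frontier h.compl_connected.isPreconnected
    (disjoint_left.2 fun _ hx hx' => hx' (hf hx)) ⟨x, hxD, hxV⟩
  exact h.exterior.2.2.2 ((hVb.subset h1).subset (compl_subset_compl.2 subset_closure))

end IsJD

/-- From the definition of the problem file. -/
lemma exists_isJD {D : Set ℂ} (ho : IsOpen D) (hc : IsConnected D) (hb : Bornology.IsBounded D)
    {J : Circle → ℂ} (hJ : Continuous J) (hi : Function.Injective J) (hf : frontier D = range J) :
    IsJD D (fun t => J (Circle.exp t)) :=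
  ⟨isLoop_of_circle hJ hi, ho, hc, hb, by rw [hf, range_circle]⟩

end Pool.Agent.H14.Jordan
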