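import Pool.Agent.H14.Jordan.Split

set_option autoImplicit false
open Set Topology Filter Complex
open scoped Real

/-! **The crosscut theorem.** -/

namespace Pool.Agent.H14.Jordan

lemma segment_param {p q : ℂ} (hpq : p ≠ q) {y : ℂ} (hy : y ∈ segment ℝ p q) :
    ∃ s : ℝ, |s| ≤ ‖q - p‖ / 2 ∧ y = (p + q) / 2 + s * ((q - p) / (‖q - p‖ : ℂ)) := by
  have hn : (‖q - p‖ : ℂ) ≠ 0 := by
    rw [ofReal_ne_zero, norm_ne_zero_iff, sub_ne_zero]; exact hpq.symm
  have hpos : 0 < ‖q - p‖ := norm_pos_iff.2 (sub_ne_zero.2 hpq.symm)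
  rw [segment_eq_image'] at hy
  obtain ⟨θ, hθ, rfl⟩ := hy
  refine ⟨(θ - 1 / 2) * ‖q - p‖, ?_, ?_⟩
  · rw [abs_mul, abs_of_pos hpos]
    have : |θ - 1 / 2| ≤ 1 / 2 := abs_le.2 ⟨by linarith [hθ.1], by linarith [hθ.2]⟩
    nlinarith
  · simp only [real_smul]
    push_cast
    field_simp
    ring

lemma param_segment {p q : ℂ} (hpq : p ≠ q) {s : ℝ} (hs : |s| ≤ ‖q - p‖ / 2) :
    (p + q) / 2 + s * ((q - p) / (‖q - p‖ : ℂ)) ∈ segment ℝ p q := by
  have hn : (‖q - p‖ : ℂ) ≠ 0 := by
    rw [ofReal_ne_zero, norm_ne_zero_iff, sub_ne_zero]; exact hpq.symm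
  have hpos : 0 < ‖q - p‖ := norm_pos_iff.2 (sub_ne_zero.2 hpq.symm)
  rw [segment_eq_image']
  rw [abs_le] at hs
  refine ⟨1 / 2 + s / ‖q - p‖, ⟨?_, ?_⟩, ?_⟩
  · have : -(1 / 2) ≤ s / ‖q - p‖ := by rw [le_div_iff₀ hpos]; linarith [hs.1]
    linarith
  · have : s / ‖q - p‖ ≤ 1 / 2 := by rw [div_le_iff₀ hpos]; linarith [hs.2]
    linarith
  · simp only [real_smul]
    push_cast
    field_simp
    ring

/-- **The crosscut theorem.** A crosscut `c = γ[0,1]` (with a straight piece) of a Jordan domain `D`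
splits `D` into exactly two domains; one is bounded by `c` and the arc from `ρ a` to `ρ b`, the
other by `c` and the complementary arc. -/
theorem crosscut {D : Set ℂ} {ρ : ℝ → ℂ} {a b : ℝ} {γ : ℝ → ℂ} (h : IsCross D ρ a b γ)
    {t1 t2 : ℝ} (hst : IsStraight γ t1 t2) :
    ∃ V W : Set ℂ, IsOpen V ∧ IsOpen W ∧ IsConnected V ∧ IsConnected W ∧ Disjoint V W ∧
      V ∪ W = D \ γ '' Icc 0 1 ∧ frontier V = γ '' Icc 0 1 ∪ ρ '' Icc a b ∧
      frontier W = γ '' Icc 0 1 ∪ ρ '' Icc b (a + 2 * π) := by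
  have hLoop := h.jd.loop
  set c := γ '' Icc 0 1 with hc
  have hcc : IsCompact c := h.compact
  set p := γ t1 with hp
  set q := γ t2 with hq
  have ht1 : t1 ∈ Icc (0 : ℝ) 1 := ⟨hst.pos.le, by linarith [hst.lt, hst.lt_one]⟩
  have ht2 : t2 ∈ Icc (0 : ℝ) 1 := ⟨by linarith [hst.lt, hst.pos], hst.lt_one.le⟩
  have hpq : p ≠ q := fun he => hst.lt.ne (h.inj ht1 ht2 he)
  set r : ℝ := ‖q - p‖ / 2 with hr
  have hr0 : 0 < r := by
    have : 0 < ‖q - p‖ := norm_pos_iff.2 (sub_ne_zero.2 hpq.symm)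
    rw [hr]; positivity
  have hn : (‖q - p‖ : ℂ) ≠ 0 := by
    rw [ofReal_ne_zero, norm_ne_zero_iff, sub_ne_zero]; exact hpq.symm
  set u : ℂ := (q - p) / (‖q - p‖ : ℂ) with hu
  have hu1 : ‖u‖ = 1 := by
    rw [hu, norm_div, norm_real, norm_norm, div_self]
    rw [norm_ne_zero_iff, sub_ne_zero]; exact hpq.symm
  have hu0 : u ≠ 0 := by intro h0; rw [h0, norm_zero] at hu1; exact zero_ne_one hu1
  set x : ℂ := (p + q) / 2 with hx
  have hxp : x - r * u = p := by
    rw [hx, hr, hu]; push_cast; field_simp; ring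
  have hxq : x + r * u = q := by
    rw [hx, hr, hu]; push_cast; field_simp; ring
  have hru : (r : ℂ) * u ≠ 0 := mul_ne_zero (ofReal_ne_zero.2 hr0.ne') hu0
  -- the rest of the theta curve
  set S' : Set ℂ := range ρ ∪ γ '' Icc 0 t1 ∪ γ '' Icc t2 1 with hS'
  have hS'c : IsCompact S' :=
    (hLoop.isCompact_range.union (h.piece_compact le_rfl ht1.2)).union
      (h.piece_compact ht2.1 le_rfl)
  have hxseg : x ∈ segment ℝ p q := by
    have := param_segment hpq (s := 0) (by rw [abs_zero]; positivity)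
    simpa using this
  obtain ⟨τ, hτ, hτx⟩ : ∃ τ ∈ Icc t1 t2, γ τ = x := by
    rw [← hst.seg] at hxseg; exact hxseg
  have hτ1 : t1 < τ := by
    refine lt_of_le_of_ne hτ.1 fun he => ?_
    rw [← he, ← hp] at hτx
    exact hru (sub_eq_self.1 (hxp.trans hτx))
  have hτ2 : τ < t2 := by
    refine lt_of_le_of_ne hτ.2 fun he => ?_
    rw [he, ← hq] at hτx
    exact hru (add_eq_left.1 (hxq.trans hτx))
  have hτ01 : τ ∈ Ioo (0 : ℝ) 1 := ⟨by linarith [hst.pos], by linarith [hst.lt_one]⟩
  have hxD : x ∈ D := by rw [← hτx]; exact h.mem τ hτ01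
  have hxS' : x ∉ S' := by
    rintro ((hx' | ⟨s, hs, hsx⟩) | ⟨s, hs, hsx⟩)
    · exact h.jd.notMem hxD hx'
    · rw [← hτx] at hsx
      have := h.inj ⟨hs.1, hs.2.trans ht1.2⟩ ⟨hτ01.1.le, hτ01.2.le⟩ hsx
      linarith [hs.2]
    · rw [← hτx] at hsx
      have := h.inj ⟨ht2.1.trans hs.1, hs.2⟩ ⟨hτ01.1.le, hτ01.2.le⟩ hsx
      linarith [hs.1]
  obtain ⟨d, hd, hball⟩ := Metric.isOpen_iff.1 hS'c.isClosed.isOpen_compl x hxS'
  have hdS : ∀ ζ ∈ S', d ≤ ‖ζ - x‖ := by
    intro ζ hζ
    by_contra hcon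
    push Not at hcon
    exact hball (by rw [Metric.mem_ball, dist_eq_norm]; exact hcon) hζ
  have hpS : p ∈ S' := Or.inl (Or.inr ⟨t1, ⟨ht1.1, le_rfl⟩, rfl⟩)
  have hqS : q ∈ S' := Or.inr ⟨t2, ⟨le_rfl, ht2.2⟩, rfl⟩
  have hdr : d ≤ r := by
    have h1 := hdS p hpS
    rw [← hxp] at h1
    have h2 : x - r * u - x = -(r * u) := by ring
    rw [h2, norm_neg, norm_mul, hu1, mul_one, norm_real, Real.norm_of_nonneg hr0.le] at h1
    exact h1
  have hcS : c = S' \ range ρ ∪ c := by
    rw [eq_comm, union_eq_right]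
    rintro y ⟨(hy | hy) | hy, hy2⟩
    · exact absurd hy hy2
    · exact image_mono (Icc_subset_Icc le_rfl ht1.2) hy
    · exact image_mono (Icc_subset_Icc ht2.1 le_rfl) hy
  -- points of the ball
  have hballD : Metric.ball x d ⊆ D := by
    refine subset_of_frontier (convex_ball x d).isPreconnected ?_
      ⟨x, Metric.mem_ball_self hd, hxD⟩
    rw [h.jd.fr, disjoint_left]
    intro y hy hyb
    exact hball hyb (Or.inl (Or.inl hy))
  have hline : ∀ y ∈ Metric.ball x d, (y ∈ c ↔ ((y - x) / u).im = 0) := by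
    intro y hy
    constructor
    · rintro ⟨s, hs, rfl⟩
      have hs' : s ∈ Icc t1 t2 := by
        constructor
        · by_contra hcon
          push Not at hcon
          exact hball hy (Or.inl (Or.inr ⟨s, ⟨hs.1, hcon.le⟩, rfl⟩))
        · by_contra hcon
          push Not at hcon
          exact hball hy (Or.inr ⟨s, ⟨hcon.le, hs.2⟩, rfl⟩)
      have h1 : γ s ∈ segment ℝ p q := by rw [← hst.seg]; exact ⟨s, hs', rfl⟩
      obtain ⟨σ, -, hσ⟩ := segment_param hpq h1
      have h2 : (γ s - x) / u = σ := by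
        rw [hσ]
        have : (p + q) / 2 + σ * ((q - p) / (‖q - p‖ : ℂ)) - x = σ * u := by rw [hx, hu]; ring
        rw [this]; field_simp
      rw [h2, ofReal_im]
    · intro him
      have h1 : y = x + (((y - x) / u).re : ℂ) * u := by
        have h2 : (((y - x) / u).re : ℂ) = (y - x) / u := by
          apply Complex.ext
          · simp
          · simp [him]
        rw [h2]; field_simp; ring
      have h3 : |((y - x) / u).re| ≤ ‖q - p‖ / 2 := by
        rw [Metric.mem_ball, dist_eq_norm] at hy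
        have h4 : |((y - x) / u).re| ≤ ‖(y - x) / u‖ := abs_re_le_norm _
        rw [norm_div, hu1, div_one] at h4
        linarith
      have h5 := param_segment hpq h3
      rw [← hx, ← hu, ← h1, ← hst.seg] at h5
      obtain ⟨s, hs, hsy⟩ := h5
      exact ⟨s, ⟨by linarith [hs.1, ht1.1], by linarith [hs.2, ht2.2]⟩, hsy⟩
  -- the two half discs
  set Hp : Set ℂ := {y | y ∈ Metric.ball x d ∧ 0 < ((y - x) / u).im} with hHp
  set Hm : Set ℂ := {y | y ∈ Metric.ball x d ∧ ((y - x) / u).im < 0} with hHm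
  have hHpc : IsPreconnected Hp := by
    refine Convex.isPreconnected ?_
    intro y hy z hz s t hs ht hst'
    refine ⟨convex_ball x d hy.1 hz.1 hs ht hst', ?_⟩
    have h1 : (s • y + t • z - x) / u = s * ((y - x) / u) + t * ((z - x) / u) := by
      have h2 : (s : ℂ) + t = 1 := by exact_mod_cast hst'
      have h3 : s • y + t • z - x = s * (y - x) + t * (z - x) := by
        simp only [real_smul]
        linear_combination x * h2
      rw [h3, add_div, mul_div_assoc, mul_div_assoc]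
    rw [h1]
    simp only [add_im, im_ofReal_mul]
    rcases hs.lt_or_eq with h2 | h2
    · have := mul_pos h2 hy.2
      have := mul_nonneg ht hz.2.le
      linarith
    · rw [← h2] at hst' ⊢
      have : t = 1 := by linarith
      rw [this]; simpa using hz.2
  have hHmc : IsPreconnected Hm := by
    refine Convex.isPreconnected ?_
    intro y hy z hz s t hs ht hst'
    refine ⟨convex_ball x d hy.1 hz.1 hs ht hst', ?_⟩
    have h1 : (s • y + t • z - x) / u = s * ((y - x) / u) + t * ((z - x) / u) := by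
      have h2 : (s : ℂ) + t = 1 := by exact_mod_cast hst'
      have h3 : s • y + t • z - x = s * (y - x) + t * (z - x) := by
        simp only [real_smul]
        linear_combination x * h2
      rw [h3, add_div, mul_div_assoc, mul_div_assoc]
    rw [h1]
    simp only [add_im, im_ofReal_mul]
    rcases hs.lt_or_eq with h2 | h2
    · have := mul_neg_of_pos_of_neg h2 hy.2
      have := mul_nonpos_of_nonneg_of_nonpos ht hz.2.le
      linarith
    · rw [← h2] at hst' ⊢
      have : t = 1 := by linarith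
      rw [this]; simpa using hz.2
  have hHpD : Hp ⊆ D \ c := fun y hy => ⟨hballD hy.1, fun hyc => by
    rw [hline y hy.1] at hyc; exact hy.2.ne' hyc⟩
  have hHmD : Hm ⊆ D \ c := fun y hy => ⟨hballD hy.1, fun hyc => by
    rw [hline y hy.1] at hyc; exact hy.2.ne hyc⟩
  -- the two points
  set ε : ℝ := d / 4 with hε
  have hε0 : 0 < ε := by positivity
  set z : ℂ := x + ε * I * u with hz
  set w : ℂ := x - ε * I * u with hw
  have hzx : (z - x) / u = ε * I := by rw [hz]; field_simp; ring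
  have hwx : (w - x) / u = -(ε * I) := by rw [hw]; field_simp; ring
  have hnz : ‖z - x‖ = ε := by
    rw [hz, add_sub_cancel_left, norm_mul, norm_mul, hu1, norm_I, norm_real,
      Real.norm_of_nonneg hε0.le]; ring
  have hnw : ‖w - x‖ = ε := by
    have : w - x = -(ε * I * u) := by rw [hw]; ring
    rw [this, norm_neg, norm_mul, norm_mul, hu1, norm_I, norm_real,
      Real.norm_of_nonneg hε0.le]; ring
  have hzH : z ∈ Hp := by
    refine ⟨by rw [Metric.mem_ball, dist_eq_norm, hnz]; linarith, ?_⟩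
    rw [hzx]; simpa using hε0
  have hwH : w ∈ Hm := by
    refine ⟨by rw [Metric.mem_ball, dist_eq_norm, hnw]; linarith, ?_⟩
    rw [hwx]; simpa using hε0
  -- they are not joined
  have hnj : ¬ JoinedIn (range ρ ∪ c)ᶜ z w := by
    intro hj
    obtain ⟨L, hL, hLe⟩ := hasLog_of_joined (hLoop.isCompact_range.isClosed.union hcc.isClosed) hj
    have hnear : ∀ ζ ∈ S', ‖z - w‖ < ‖ζ - w‖ := by
      intro ζ hζ
      have h1 := hdS ζ hζ
      have h2 : ‖z - w‖ ≤ 2 * ε := by
        have := norm_sub_le (z - x) (w - x)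
        rw [sub_sub_sub_cancel_right, hnz, hnw] at this
        linarith
      have h3 : ‖ζ - x‖ ≤ ‖ζ - w‖ + ‖w - x‖ := by
        have := norm_add_le (ζ - w) (w - x)
        rwa [sub_add_sub_cancel] at this
      rw [hnw] at h3
      linarith
    obtain ⟨hl1, hl2⟩ := hasLog_near hnear
    have hSsub : S' ⊆ range ρ ∪ c := by
      rintro y ((hy | hy) | hy)
      · exact Or.inl hy
      · exact Or.inr (image_mono (Icc_subset_Icc le_rfl ht1.2) hy)
      · exact Or.inr (image_mono (Icc_subset_Icc ht2.1 le_rfl) hy)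
    have hS'pre : IsPreconnected S' := by
      refine IsPreconnected.union (ρ b) (Or.inl ⟨b, rfl⟩) ⟨1, ⟨ht2.2, le_rfl⟩, h.h1⟩ ?_
        (h.piece_preconnected ht2.1 le_rfl)
      exact IsPreconnected.union (ρ a) ⟨a, rfl⟩ ⟨0, ⟨le_rfl, ht1.1⟩, h.h0⟩
        (isPreconnected_range hLoop.cont) (h.piece_preconnected le_rfl ht1.2)
    have hqq0 : ∀ ζ ∈ range ρ ∪ c, qq z w ζ ≠ 0 := fun ζ hζ => by
      rw [← hLe ζ hζ]; exact exp_ne_zero _
    -- difference with the principal logarithm
    have e1 := eq_of_exp_eq hS'pre ((hL.mono hSsub).sub hl1) (c := 1) (fun ζ hζ => by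
      simp only [Pi.sub_apply]
      rw [exp_sub, hLe ζ (hSsub hζ), hl2 ζ hζ, div_self (hqq0 ζ (hSsub hζ))]) hpS hqS
    obtain ⟨hM1, hM2, hM3, hM4⟩ := log_line (x := x) (u := u) hu1 hε0 hr0
    set M : ℂ → ℂ := fun ζ => -(2 * ((log ((ζ - x) / u + ε * I)).im : ℂ)) * I with hM
    have hsegc : segment ℝ p q ⊆ range ρ ∪ c := by
      rw [← hst.seg]
      exact fun y hy => Or.inr (image_mono (Icc_subset_Icc ht1.1 ht2.2) hy)
    have hsegH : ∀ y ∈ segment ℝ p q, ∃ s : ℝ, y = x + s * u := by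
      intro y hy
      obtain ⟨s, -, hs⟩ := segment_param hpq hy
      exact ⟨s, hs⟩
    have hsegM : segment ℝ p q ⊆ {ζ | 0 ≤ ((ζ - x) / u).im} := by
      intro y hy
      obtain ⟨s, rfl⟩ := hsegH y hy
      have : (x + s * u - x) / u = s := by rw [add_sub_cancel_left]; field_simp
      rw [mem_ofPred_eq, this, ofReal_im]
    have e2 := eq_of_exp_eq (convex_segment p q).isPreconnected
      ((hL.mono hsegc).sub (hM1.mono hsegM)) (c := 1) (fun ζ hζ => by
        simp only [Pi.sub_apply]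
        obtain ⟨s, hs⟩ := hsegH ζ hζ
        rw [exp_sub, hLe ζ (hsegc hζ), hs, hM2 s, div_self]
        rw [← hs]
        exact hqq0 ζ (hsegc hζ)) (left_mem_segment ℝ p q) (right_mem_segment ℝ p q)
    simp only [Pi.sub_apply] at e1 e2
    rw [hxq] at hM3
    rw [hxp] at hM4
    have e3 : (2 * π * I : ℂ) = 0 := by
      rw [← hz, ← hw] at hM3 hM4
      linear_combination hM4 - hM3 - e1 + e2
    exact two_pi_I_ne_zero e3
  -- the components
  have hopen : IsOpen (D \ c) := h.jd.isOpen.sdiff hcc.isClosed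
  set V := connectedComponentIn (D \ c) z with hV
  set W := connectedComponentIn (D \ c) w with hW
  have hzD : z ∈ D \ c := hHpD hzH
  have hwD : w ∈ D \ c := hHmD hwH
  have hVo : IsOpen V := hopen.connectedComponentIn
  have hWo : IsOpen W := hopen.connectedComponentIn
  have hVc : IsConnected V := isConnected_connectedComponentIn_iff.2 hzD
  have hWc : IsConnected W := isConnected_connectedComponentIn_iff.2 hwD
  have hVs : V ⊆ D \ c := connectedComponentIn_subset _ _
  have hWs : W ⊆ D \ c := connectedComponentIn_subset _ _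
  have hVW : Disjoint V W := by
    rw [disjoint_left]
    intro y hyV hyW
    have h1 : V = W := (connectedComponentIn_eq hyV).trans (connectedComponentIn_eq hyW).symm
    have h2 : w ∈ V := by rw [h1]; exact mem_connectedComponentIn hwD
    have h3 : JoinedIn V z w := (hVo.isConnected_iff_isPathConnected.1 hVc).joinedIn z
      (mem_connectedComponentIn hzD) w h2
    exact hnj (h3.mono fun y hy => by
      rintro (hy' | hy')
      · exact h.jd.notMem (hVs hy).1 hy'
      · exact (hVs hy).2 hy')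
  have hfr : ∀ y, frontier (connectedComponentIn (D \ c) y) ⊆ range ρ ∪ c := by
    intro y
    rw [← h.jd.fr]; exact frontier_component_diff h.jd.isOpen hcc.isClosed y
  have hcov : V ∪ W = D \ c := by
    apply Subset.antisymm (union_subset hVs hWs)
    intro y hy
    have h1 : c ⊆ frontier (connectedComponentIn (D \ c) y) :=
      h.subset_frontier (connectedComponentIn_subset _ _) ⟨y, mem_connectedComponentIn hy⟩ (hfr y)
    have hxc : x ∈ c := ⟨τ, ⟨hτ01.1.le, hτ01.2.le⟩, hτx⟩
    obtain ⟨v, hvb, hv⟩ := mem_closure_iff.1 (frontier_subset_closure (h1 hxc)) _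
      Metric.isOpen_ball (Metric.mem_ball_self hd)
    have hvD := connectedComponentIn_subset _ _ hv
    have hne : ((v - x) / u).im ≠ 0 := fun h0 => hvD.2 ((hline v hvb).2 h0)
    rcases lt_or_gt_of_ne hne with h2 | h2
    · right
      have h3 := hHmc.subset_connectedComponentIn hwH hHmD
      have h4 : v ∈ W := h3 ⟨hvb, h2⟩
      rw [hW, connectedComponentIn_eq h4, ← connectedComponentIn_eq hv]
      exact mem_connectedComponentIn hy
    · left
      have h3 := hHpc.subset_connectedComponentIn hzH hHpD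
      have h4 : v ∈ V := h3 ⟨hvb, h2⟩
      rw [hV, connectedComponentIn_eq h4, ← connectedComponentIn_eq hv]
      exact mem_connectedComponentIn hy
  have hVf : c ⊆ frontier V := h.subset_frontier hVs hVc.nonempty (hfr z)
  have hWf : c ⊆ frontier W := h.subset_frontier hWs hWc.nonempty (hfr w)
  -- the arcs
  have hends : {ρ a, ρ b} ⊆ c := by
    rintro x (rfl | rfl)
    · exact ⟨0, ⟨le_rfl, zero_le_one⟩, h.h0⟩
    · exact ⟨1, ⟨zero_le_one, le_rfl⟩, h.h1⟩
  have hcl : ∀ y ∈ range ρ, y ∉ c → y ∈ closure V ∨ y ∈ closure W := by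
    intro y hy hyc
    have h1 : y ∈ closure D := by
      have : y ∈ frontier D := by rw [h.jd.fr]; exact hy
      exact this.1
    have h2 : y ∈ closure (D \ c) := by
      rw [mem_closure_iff]
      intro o ho hyo
      obtain ⟨v, hv, hvD⟩ := mem_closure_iff.1 h1 (o ∩ cᶜ) (ho.inter hcc.isClosed.isOpen_compl)
        ⟨hyo, hyc⟩
      exact ⟨v, hv.1, hvD, hv.2⟩
    rw [← hcov, closure_union] at h2
    exact h2
  have hA : ∀ s ∈ Ioo a b, ρ s ∉ c := by
    rintro s hs hsc
    obtain ⟨t, ht, hts⟩ := hsc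
    rcases eq_or_lt_of_le ht.1 with h4 | h4
    · rw [← h4, h.h0] at hts
      exact hs.1.ne (hLoop.injOn h.hba (left_mem_Icc.2 h.hab.le) (Ioo_subset_Icc_self hs) hts)
    rcases eq_or_lt_of_le ht.2 with h5 | h5
    · rw [h5, h.h1] at hts
      exact hs.2.ne' (hLoop.injOn h.hba (right_mem_Icc.2 h.hab.le) (Ioo_subset_Icc_self hs) hts)
    exact h.notMem_range ⟨h4, h5⟩ ⟨s, hts.symm⟩
  have hba' : a + 2 * π < b + 2 * π := by linarith [h.hab]
  have hB : ∀ s ∈ Ioo b (a + 2 * π), ρ s ∉ c := by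
    rintro s hs hsc
    obtain ⟨t, ht, hts⟩ := hsc
    rcases eq_or_lt_of_le ht.1 with h4 | h4
    · rw [← h4, h.h0, ← hLoop.add_two_pi a] at hts
      exact hs.2.ne' (hLoop.injOn hba' (right_mem_Icc.2 h.hba.le) (Ioo_subset_Icc_self hs) hts)
    rcases eq_or_lt_of_le ht.2 with h5 | h5
    · rw [h5, h.h1] at hts
      exact hs.1.ne (hLoop.injOn hba' (left_mem_Icc.2 h.hba.le) (Ioo_subset_Icc_self hs) hts)
    exact h.notMem_range ⟨h4, h5⟩ ⟨s, hts.symm⟩
  -- general conclusion
  have concl : ∀ V W : Set ℂ, V ⊆ D \ c → W ⊆ D \ c → IsConnected V → IsConnected W →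
      c ⊆ frontier V → c ⊆ frontier W → frontier V ⊆ range ρ ∪ c → frontier W ⊆ range ρ ∪ c →
      (∀ y ∈ range ρ, y ∉ c → y ∈ closure V ∨ y ∈ closure W) →
      (∃ s ∈ Ioo a b, ρ s ∈ closure V) →
      frontier V = c ∪ ρ '' Icc a b ∧ frontier W = c ∪ ρ '' Icc b (a + 2 * π) := by
    rintro V W hVs hWs hVc hWc hVf hWf hVfr hWfr hcl ⟨s0, hs0, hs0V⟩
    have hnVB : ∀ t ∈ Ioo b (a + 2 * π), ρ t ∉ closure V := fun t ht htV =>
      h.not_both hVc.isPreconnected hVs hs0 ht hs0V htV
    have hWB : ∀ t ∈ Ioo b (a + 2 * π), ρ t ∈ closure W := fun t ht =>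
      (hcl _ ⟨t, rfl⟩ (hB t ht)).resolve_left (hnVB t ht)
    have hnWA : ∀ s ∈ Ioo a b, ρ s ∉ closure W := fun s hs hsW =>
      h.not_both hWc.isPreconnected hWs hs (t := (b + (a + 2 * π)) / 2)
        ⟨by linarith [h.hba], by linarith [h.hba]⟩ hsW
        (hWB _ ⟨by linarith [h.hba], by linarith [h.hba]⟩)
    have hVA : ∀ s ∈ Ioo a b, ρ s ∈ closure V := fun s hs =>
      (hcl _ ⟨s, rfl⟩ (hA s hs)).resolve_right (hnWA s hs)
    -- membership in the frontier
    have hfV : ∀ y ∈ range ρ, y ∈ closure V → y ∈ frontier V := fun y hy hyV =>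
      ⟨hyV, fun hi => h.jd.notMem (hVs (interior_subset hi)).1 hy⟩
    have hfW : ∀ y ∈ range ρ, y ∈ closure W → y ∈ frontier W := fun y hy hyW =>
      ⟨hyW, fun hi => h.jd.notMem (hWs (interior_subset hi)).1 hy⟩
    constructor
    · apply Subset.antisymm
      · intro y hy
        rcases hVfr hy with hyρ | hyc
        · rw [hLoop.range_eq_union h.hab.le h.hba.le] at hyρ
          rcases hyρ with hyA | ⟨t, ht, rfl⟩
          · exact Or.inr hyA
          · by_cases hto : t ∈ Ioo b (a + 2 * π)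
            · exact absurd (frontier_subset_closure hy) (hnVB t hto)
            · left
              rcases eq_or_lt_of_le ht.1 with h4 | h4
              · rw [← h4]; exact hends (Or.inr rfl)
              rcases eq_or_lt_of_le ht.2 with h5 | h5
              · rw [h5, hLoop.add_two_pi]; exact hends (Or.inl rfl)
              exact absurd ⟨h4, h5⟩ hto
        · exact Or.inl hyc
      · rintro y (hyc | ⟨s, hs, rfl⟩)
        · exact hVf hyc
        · rcases eq_or_lt_of_le hs.1 with h4 | h4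
          · rw [← h4]; exact hVf (hends (Or.inl rfl))
          rcases eq_or_lt_of_le hs.2 with h5 | h5
          · rw [h5]; exact hVf (hends (Or.inr rfl))
          exact hfV _ ⟨s, rfl⟩ (hVA s ⟨h4, h5⟩)
    · apply Subset.antisymm
      · intro y hy
        rcases hWfr hy with hyρ | hyc
        · rw [hLoop.range_eq_union h.hab.le h.hba.le] at hyρ
          rcases hyρ with ⟨t, ht, rfl⟩ | hyB
          · by_cases hto : t ∈ Ioo a b
            · exact absurd (frontier_subset_closure hy) (hnWA t hto)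
            · left
              rcases eq_or_lt_of_le ht.1 with h4 | h4
              · rw [← h4]; exact hends (Or.inl rfl)
              rcases eq_or_lt_of_le ht.2 with h5 | h5
              · rw [h5]; exact hends (Or.inr rfl)
              exact absurd ⟨h4, h5⟩ hto
          · exact Or.inr hyB
        · exact Or.inl hyc
      · rintro y (hyc | ⟨s, hs, rfl⟩)
        · exact hWf hyc
        · rcases eq_or_lt_of_le hs.1 with h4 | h4
          · rw [← h4]; exact hWf (hends (Or.inr rfl))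
          rcases eq_or_lt_of_le hs.2 with h5 | h5
          · rw [h5, hLoop.add_two_pi]; exact hWf (hends (Or.inl rfl))
          exact hfW _ ⟨s, rfl⟩ (hWB s ⟨h4, h5⟩)
  have hmid : (a + b) / 2 ∈ Ioo a b := ⟨by linarith [h.hab], by linarith [h.hab]⟩
  rcases hcl (ρ ((a + b) / 2)) ⟨_, rfl⟩ (hA _ hmid) with h1 | h1
  · obtain ⟨f1, f2⟩ := concl V W hVs hWs hVc hWc hVf hWf (hfr z) (hfr w) hcl ⟨_, hmid, h1⟩
    exact ⟨V, W, hVo, hWo, hVc, hWc, hVW, hcov, f1, f2⟩
  · obtain ⟨f1, f2⟩ := concl W V hWs hVs hWc hVc hWf hVf (hfr w) (hfr z)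
      (fun y hy hyc => (hcl y hy hyc).symm) ⟨_, hmid, h1⟩
    exact ⟨W, V, hWo, hVo, hWc, hVc, hVW.symm, by rw [union_comm]; exact hcov, f1, f2⟩

end Pool.Agent.H14.Jordan
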