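import Pool.Agent.H14.Jordan.Ext
import Pool.Agent.H14.Jordan.Theta
import Pool.Agent.H81.Q1.Exploration

set_option autoImplicit false
open Set Topology Filter Complex
open scoped Real

/-! The results on Jordan domains for the Jordan domains of `H81/Q1/Exploration`. -/

namespace Pool.Agent.H14.Jordan

open Pool.Agent.H81.Q1 (IsJordanDomain)

/-- A Jordan domain has a periodic parametrisation of its boundary. -/
theorem exists_loop {D : Set ℂ} (h : IsJordanDomain D) : ∃ ρ, IsJD D ρ := by
  obtain ⟨ho, hc, hb, J, hJ, hi, hf⟩ := h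
  exact ⟨_, exists_isJD ho hc hb hJ hi hf⟩

/-- The same with a given parametrisation by the circle. -/
theorem isJD_of_circle {D : Set ℂ} (h : IsJordanDomain D) {J : Circle → ℂ} (hJ : Continuous J)
    (hi : Function.Injective J) (hf : frontier D = range J) :
    IsJD D (fun t => J (Circle.exp t)) := exists_isJD h.1 h.2.1 h.2.2.1 hJ hi hf

/-- The exterior of a Jordan domain is connected. -/
theorem ext_connected {D : Set ℂ} (h : IsJordanDomain D) : IsConnected (closure D)ᶜ := by
  obtain ⟨ρ, hρ⟩ := exists_loop h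
  exact hρ.exterior.2.1

/-- Every boundary point is a limit of exterior points. -/
theorem frontier_subset_ext {D : Set ℂ} (h : IsJordanDomain D) :
    frontier D ⊆ closure (closure D)ᶜ := by
  obtain ⟨ρ, hρ⟩ := exists_loop h
  exact hρ.frontier_subset_closure_exterior

/-- The complement of a Jordan domain is connected. -/
theorem compl_connected {D : Set ℂ} (h : IsJordanDomain D) : IsConnected Dᶜ := by
  obtain ⟨ρ, hρ⟩ := exists_loop h
  exact hρ.compl_connected

/-- A bounded set whose frontier lies in `D` lies in `D`. -/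
theorem subset_of_frontier_subset {D V : Set ℂ} (h : IsJordanDomain D)
    (hV : Bornology.IsBounded V) (hf : frontier V ⊆ D) : V ⊆ D := by
  obtain ⟨ρ, hρ⟩ := exists_loop h
  exact hρ.subset_of_frontier_subset hV hf

/-- **Uniform local connectivity** of a Jordan domain. -/
theorem uniform_local_joined {D : Set ℂ} (h : IsJordanDomain D) {ε : ℝ} (hε : 0 < ε) :
    ∃ δ > 0, ∀ z ∈ D, ∀ w ∈ D, dist z w < δ → JoinedIn (D ∩ Metric.ball z ε) z w := by
  obtain ⟨ρ, hρ⟩ := exists_loop h
  exact ulc hρ.loop h.1 h.2.1.isPreconnected hρ.fr hε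

/-- Local connectivity at a point (in particular at a boundary point). -/
theorem local_joined {D : Set ℂ} (h : IsJordanDomain D) (b : ℂ) {r : ℝ} (hr : 0 < r) :
    ∃ η > 0, ∀ z ∈ D, ∀ w ∈ D, dist z b < η → dist w b < η →
      JoinedIn (D ∩ Metric.ball b r) z w := by
  obtain ⟨δ, hδ, hj⟩ := uniform_local_joined h (show 0 < r / 2 by positivity)
  refine ⟨min (δ / 2) (r / 2), by positivity, fun z hz w hw hzb hwb => ?_⟩
  have h1 := min_le_left (δ / 2) (r / 2)
  have h2 := min_le_right (δ / 2) (r / 2)
  refine (hj z hz w hw ?_).mono (inter_subset_inter_right _ ?_)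
  · have := dist_triangle_right z w b
    linarith
  · apply Metric.ball_subset_ball'
    linarith

/-- Two points of a Jordan domain far from a small compact set are joined off this set. -/
theorem far_joined {D : Set ℂ} (h : IsJordanDomain D) {ε : ℝ} (hε : 0 < ε) :
    ∃ δ > 0, ∀ (c : ℂ) (K : Set ℂ), IsCompact K → K ⊆ Metric.closedBall c δ →
      ∀ z ∈ D, ∀ w ∈ D, ε < dist z c → ε < dist w c → JoinedIn (D \ K) z w := by
  obtain ⟨ρ, hρ⟩ := exists_loop h
  exact joined_of_small hρ.loop h.1 h.2.1.isPreconnected hρ.fr hε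

/-- A continuous nonvanishing function on a contractible space, e.g. on `ℝ`, has a continuous
logarithm. -/
theorem exists_log_real {f : ℝ → ℂ} (hf : Continuous f) (h0 : ∀ t, f t ≠ 0) :
    ∃ L : ℝ → ℂ, Continuous L ∧ ∀ t, exp (L t) = f t := by
  obtain ⟨L, hL⟩ := exists_log_contractible ⟨f, hf⟩ h0
  exact ⟨L, L.continuous, hL⟩

end Pool.Agent.H14.Jordan
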