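import Pool.Agent.H14.Jordan.Small

set_option autoImplicit false
open Set Topology Filter Complex
open scoped Real

/-! Crosscuts of Jordan domains (the theta curve lemma). -/

namespace Pool.Agent.H14.Jordan

/-- The frontier of a component of the complement of a closed set lies in this set. -/
lemma frontier_component {K : Set ℂ} (hK : IsClosed K) (z : ℂ) :
    frontier (connectedComponentIn Kᶜ z) ⊆ K := by
  have hopen : IsOpen Kᶜ := hK.isOpen_compl
  intro x hx
  by_contra hxK
  by_cases hz : z ∈ Kᶜ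
  · have hUo : IsOpen (connectedComponentIn Kᶜ z) := hopen.connectedComponentIn
    have h2 : x ∉ connectedComponentIn Kᶜ z := by
      intro hxU
      rw [hUo.frontier_eq] at hx
      exact hx.2 hxU
    have h3 : IsOpen (connectedComponentIn Kᶜ x) := hopen.connectedComponentIn
    obtain ⟨y, hy1, hy2⟩ := mem_closure_iff.1 hx.1 _ h3 (mem_connectedComponentIn hxK)
    have h4 := connectedComponentIn_eq hy1
    have h5 := connectedComponentIn_eq (x := z) (y := y) hy2
    apply h2
    rw [h5, ← h4]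
    exact mem_connectedComponentIn hxK
  · rw [connectedComponentIn_eq_empty hz] at hx
    simp at hx

/-- Data of a Jordan domain. -/
structure IsJD (D : Set ℂ) (ρ : ℝ → ℂ) : Prop where
  loop : IsLoop ρ
  isOpen : IsOpen D
  conn : IsConnected D
  bdd : Bornology.IsBounded D
  fr : frontier D = range ρ

namespace IsJD
variable {D : Set ℂ} {ρ : ℝ → ℂ} (h : IsJD D ρ)
include h

lemma disj : Disjoint D (range ρ) := by
  rw [← h.fr]; exact frontier_disjoint_open h.isOpen

lemma notMem {x : ℂ} (hx : x ∈ D) : x ∉ range ρ := disjoint_left.1 h.disj hx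

/-- Two points of `D` are joined off the curve. -/
lemma joined {z w : ℂ} (hz : z ∈ D) (hw : w ∈ D) : JoinedIn (range ρ)ᶜ z w :=
  ((h.isOpen.isConnected_iff_isPathConnected.1 h.conn).joinedIn z hz w hw).mono
    fun _ hx => h.notMem hx

/-- A point of `D` and a point outside `D` are not joined off the curve. -/
lemma not_joined {z w : ℂ} (hz : z ∈ D) (hw : w ∉ D) (X : Set ℂ) :
    ¬ JoinedIn (range ρ ∪ X)ᶜ z w := by
  intro hj
  rw [← h.fr] at hj
  have := (joinedIn_of_frontier hz hj).target_mem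
  exact hw this.1

/-- The unbounded component. -/
lemma exists_ext : ∃ E : Set ℂ, IsOpen E ∧ IsConnected E ∧ Disjoint E D ∧ Disjoint E (range ρ) ∧
    frontier E = range ρ ∧ ¬ Bornology.IsBounded E := by
  obtain ⟨r, hr⟩ := (h.bdd.union h.loop.isCompact_range.isBounded).subset_closedBall 0
  have hpos : 0 < max r 1 := by positivity
  have hout : {y : ℂ | max r 1 < ‖y - 0‖} ⊆ (range ρ)ᶜ := by
    intro y hy hyK
    have h1 := hr (Or.inr hyK)
    rw [Metric.mem_closedBall, dist_eq_norm] at h1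
    exact absurd (lt_of_le_of_lt (le_max_left r 1) hy) (not_lt.2 h1)
  set y0 : ℂ := ((max r 1 + 1 : ℝ) : ℂ) with hy0
  have hy0n : ‖y0 - 0‖ = max r 1 + 1 := by
    rw [sub_zero, hy0, norm_real, Real.norm_of_nonneg (by positivity)]
  have hy0mem : y0 ∈ {y : ℂ | max r 1 < ‖y - 0‖} := by
    rw [mem_ofPred_eq, hy0n]; linarith
  have hcl : IsClosed (range ρ) := h.loop.isCompact_range.isClosed
  have hyD : y0 ∉ D := by
    intro hy
    have h1 := hr (Or.inl hy)
    rw [Metric.mem_closedBall, dist_eq_norm, hy0n] at h1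
    have := le_max_left r 1
    linarith
  have hEo : IsOpen (connectedComponentIn (range ρ)ᶜ y0) := hcl.isOpen_compl.connectedComponentIn
  have hEc : IsConnected (connectedComponentIn (range ρ)ᶜ y0) :=
    isConnected_connectedComponentIn_iff.2 (hout hy0mem)
  have hEd : Disjoint (connectedComponentIn (range ρ)ᶜ y0) (range ρ) := by
    rw [disjoint_left]
    intro x hx
    exact connectedComponentIn_subset _ _ hx
  refine ⟨_, hEo, hEc, ?_, hEd, ?_, ?_⟩
  · rw [disjoint_left]
    intro x hxE hxD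
    have h1 : connectedComponentIn (range ρ)ᶜ y0 ⊆ D := by
      refine subset_of_frontier hEc.isPreconnected ?_ ⟨x, hxE, hxD⟩
      rw [h.fr]; exact hEd.symm
    exact hyD (h1 (mem_connectedComponentIn (hout hy0mem)))
  · exact h.loop.frontier_eq hEc.nonempty hEd (frontier_component hcl y0)
  · intro hb
    have h1 : {y : ℂ | max r 1 < ‖y - 0‖} ⊆ connectedComponentIn (range ρ)ᶜ y0 :=
      (preconnected_outside 0 hpos).subset_connectedComponentIn hy0mem hout
    obtain ⟨R, hR⟩ := (hb.subset h1).subset_closedBall 0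
    have h2 : ((max R (max r 1) + 1 : ℝ) : ℂ) ∈ {y : ℂ | max r 1 < ‖y - 0‖} := by
      rw [mem_ofPred_eq, sub_zero, norm_real, Real.norm_of_nonneg (by positivity)]
      have := le_max_right R (max r 1)
      linarith
    have h3 := hR h2
    rw [Metric.mem_closedBall, dist_zero_right, norm_real,
      Real.norm_of_nonneg (by positivity)] at h3
    have := le_max_left R (max r 1)
    linarith

end IsJD

/-- A crosscut of the Jordan domain `D` with end points `ρ a` and `ρ b`. -/
structure IsCross (D : Set ℂ) (ρ : ℝ → ℂ) (a b : ℝ) (γ : ℝ → ℂ) : Prop where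
  jd : IsJD D ρ
  hab : a < b
  hba : b < a + 2 * π
  cont : ContinuousOn γ (Icc 0 1)
  inj : InjOn γ (Icc 0 1)
  h0 : γ 0 = ρ a
  h1 : γ 1 = ρ b
  mem : ∀ t ∈ Ioo (0 : ℝ) 1, γ t ∈ D

namespace IsCross
variable {D : Set ℂ} {ρ : ℝ → ℂ} {a b : ℝ} {γ : ℝ → ℂ} (h : IsCross D ρ a b γ)
include h

lemma piece_compact {s t : ℝ} (hs : 0 ≤ s) (ht : t ≤ 1) : IsCompact (γ '' Icc s t) :=
  isCompact_Icc.image_of_continuousOn (h.cont.mono (Icc_subset_Icc hs ht))

lemma piece_preconnected {s t : ℝ} (hs : 0 ≤ s) (ht : t ≤ 1) : IsPreconnected (γ '' Icc s t) :=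
  isPreconnected_Icc.image _ (h.cont.mono (Icc_subset_Icc hs ht))

lemma piece_triv {s t : ℝ} (hs : 0 ≤ s) (ht : t ≤ 1) : Triv (γ '' Icc s t) :=
  Triv.arc (h.cont.mono (Icc_subset_Icc hs ht)) (h.inj.mono (Icc_subset_Icc hs ht))

lemma compact : IsCompact (γ '' Icc 0 1) := h.piece_compact le_rfl le_rfl

lemma notMem_range {t : ℝ} (ht : t ∈ Ioo (0 : ℝ) 1) : γ t ∉ range ρ := h.jd.notMem (h.mem t ht)

/-- `C ∪ c₁ ∪ c₂` does not separate the points of `D`. -/
lemma joined_gap {s t : ℝ} (hs : 0 ≤ s) (hst : s < t) (ht : t ≤ 1) {z w : ℂ} (hz : z ∈ D)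
    (hw : w ∈ D) (hz' : z ∉ γ '' Icc 0 s ∪ γ '' Icc t 1) (hw' : w ∉ γ '' Icc 0 s ∪ γ '' Icc t 1) :
    JoinedIn (D \ (γ '' Icc 0 s ∪ γ '' Icc t 1)) z w := by
  apply joinedIn_of_frontier hz
  rw [h.jd.fr, ← union_assoc]
  have hs1 : s ≤ 1 := by linarith
  have ht0 : 0 ≤ t := by linarith
  refine janiszewski (h.jd.loop.isCompact_range.union (h.piece_compact le_rfl hs1))
    (h.piece_compact ht0 le_rfl) ?_ ?_ ?_
  · -- the intersection is at most one point
    have h2 : (range ρ ∪ γ '' Icc 0 s) ∩ γ '' Icc t 1 ⊆ {γ 1} := by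
      rintro _ ⟨hx, ⟨v, hv, rfl⟩⟩
      rcases hx with hx | ⟨v', hv', hvv⟩
      · by_contra hne
        have hv1 : v ≠ 1 := fun h => hne (by rw [h]; rfl)
        exact h.notMem_range ⟨by linarith [hv.1], lt_of_le_of_ne hv.2 hv1⟩ hx
      · have := h.inj ⟨hv'.1, by linarith [hv'.2]⟩ ⟨by linarith [hv.1], hv.2⟩ hvv
        linarith [hv'.2, hv.1]
    exact (subsingleton_singleton.anti h2).isPreconnected
  · refine janiszewski h.jd.loop.isCompact_range (h.piece_compact le_rfl hs1) ?_
      (h.jd.joined hz hw) ?_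
    · have h2 : range ρ ∩ γ '' Icc 0 s ⊆ {γ 0} := by
        rintro _ ⟨hx, ⟨v, hv, rfl⟩⟩
        by_contra hne
        have hv0 : v ≠ 0 := fun h => hne (by rw [h]; rfl)
        exact h.notMem_range ⟨lt_of_le_of_ne hv.1 (Ne.symm hv0), by linarith [hv.2]⟩ hx
      exact (subsingleton_singleton.anti h2).isPreconnected
    · exact (h.piece_triv le_rfl hs1).joined (h.piece_compact le_rfl hs1)
        (fun hx => hz' (Or.inl hx)) (fun hx => hw' (Or.inl hx))
  · exact (h.piece_triv ht0 le_rfl).joined (h.piece_compact ht0 le_rfl)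
      (fun hx => hz' (Or.inr hx)) (fun hx => hw' (Or.inr hx))

/-- **Every point of the crosscut is on the frontier of every component.** -/
lemma subset_frontier {V : Set ℂ} (hV : V ⊆ D \ γ '' Icc 0 1) (hne : V.Nonempty)
    (hf : frontier V ⊆ range ρ ∪ γ '' Icc 0 1) : γ '' Icc 0 1 ⊆ frontier V := by
  -- interior points of the crosscut
  have hint : ∀ t ∈ Ioo (0 : ℝ) 1, γ t ∈ frontier V := by
    intro t ht
    by_contra hc
    have hcont : ContinuousAt γ t := h.cont.continuousAt (Icc_mem_nhds ht.1 ht.2)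
    have h1 : ∀ᶠ s in 𝓝 t, γ s ∉ frontier V :=
      hcont.eventually (isClosed_frontier.isOpen_compl.mem_nhds hc)
    obtain ⟨ε, hε, hball⟩ := Metric.eventually_nhds_iff.1 h1
    set e := min (ε / 2) (min t (1 - t) / 2) with he
    have ht1 : 0 < 1 - t := by linarith [ht.2]
    have ht0 := ht.1
    have hmin : 0 < min t (1 - t) := lt_min ht.1 ht1
    have he0 : 0 < e := by positivity
    have he1 : e < ε := lt_of_le_of_lt (min_le_left _ _) (by linarith)
    have he2 : e < t := lt_of_le_of_lt (min_le_right _ _) (by linarith [min_le_left t (1 - t)])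
    have he3 : e < 1 - t :=
      lt_of_le_of_lt (min_le_right _ _) (by linarith [min_le_right t (1 - t)])
    have hpre : IsPreconnected (D \ (γ '' Icc 0 (t - e) ∪ γ '' Icc (t + e) 1)) := by
      refine isPreconnected_of_forall_pair fun z hz w hw => ?_
      obtain ⟨p, hp⟩ := h.joined_gap (s := t - e) (t := t + e) (by linarith) (by linarith)
        (by linarith) hz.1 hw.1 hz.2 hw.2
      exact ⟨range p, by rintro _ ⟨s, rfl⟩; exact hp s, ⟨0, p.source⟩, ⟨1, p.target⟩,
        isPreconnected_range p.continuous⟩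
    have hsub : D \ (γ '' Icc 0 (t - e) ∪ γ '' Icc (t + e) 1) ⊆ V := by
      refine subset_of_frontier hpre ?_ ?_
      · rw [disjoint_left]
        intro x hx hx'
        rcases hf hx with hx1 | ⟨s, hs, rfl⟩
        · exact h.jd.notMem hx'.1 hx1
        · by_cases hs1 : s ≤ t - e
          · exact hx'.2 (Or.inl ⟨s, ⟨hs.1, hs1⟩, rfl⟩)
          by_cases hs2 : t + e ≤ s
          · exact hx'.2 (Or.inr ⟨s, ⟨hs2, hs.2⟩, rfl⟩)
          push Not at hs1 hs2
          exact hball (by rw [Real.dist_eq, abs_lt]; constructor <;> linarith) hx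
      · obtain ⟨v, hv⟩ := hne
        refine ⟨v, ⟨(hV hv).1, fun hv' => (hV hv).2 ?_⟩, hv⟩
        rcases hv' with hv' | hv'
        · exact image_mono (Icc_subset_Icc le_rfl (by linarith)) hv'
        · exact image_mono (Icc_subset_Icc (by linarith) le_rfl) hv'
    have hmem : γ t ∈ D \ (γ '' Icc 0 (t - e) ∪ γ '' Icc (t + e) 1) := by
      refine ⟨h.mem t ht, ?_⟩
      rintro (⟨s, hs, hst⟩ | ⟨s, hs, hst⟩)
      · have := h.inj ⟨hs.1, by linarith [hs.2]⟩ ⟨ht.1.le, ht.2.le⟩ hst
        linarith [hs.2]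
      · have := h.inj ⟨by linarith [hs.1], hs.2⟩ ⟨ht.1.le, ht.2.le⟩ hst
        linarith [hs.1]
    exact (hV (hsub hmem)).2 ⟨t, ⟨ht.1.le, ht.2.le⟩, rfl⟩
  -- closure
  have h2 : γ '' Icc 0 1 ⊆ closure (γ '' Ioo 0 1) := by
    rintro _ ⟨t, ht, rfl⟩
    have h3 : t ∈ closure (Ioo (0 : ℝ) 1) := by
      rw [closure_Ioo (by norm_num)]; exact ht
    exact ((h.cont t ht).mono Ioo_subset_Icc_self).mem_closure_image h3
  refine h2.trans (closure_minimal ?_ isClosed_frontier)
  rintro _ ⟨t, ht, rfl⟩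
  exact hint t ht

end IsCross

end Pool.Agent.H14.Jordan
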