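import Mathlib

set_option autoImplicit false
open Set Topology Filter Complex

/-! Plane separation by logarithms (Eilenberg's criterion) and Janiszewski's theorem.

`HasLog K f` : the function `f` has a continuous logarithm on `K`.
`hasLog_of_preconnected` : if `z, w` lie in a preconnected set disjoint from the closed set `K`,
then `(ζ - z) / (ζ - w)` has a continuous logarithm on `K`.
`joined_of_hasLog` : the converse for compact `K`, with path-joinedness in the complement.
`janiszewski` : if `A`, `B` are compact, `A ∩ B` is preconnected and `z`, `w` are joined off `A` and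
off `B`, then they are joined off `A ∪ B`. -/

namespace Pool.Agent.H14.Jordan

/-! ### Functions with `exp = 1` are constant -/

lemma exp_eq_near {a b : ℂ} (h : exp a = exp b) (hd : ‖a - b‖ < 2 * Real.pi) : a = b := by
  obtain ⟨n, hn⟩ := Complex.exp_eq_exp_iff_exists_int.1 h
  have h1 : a - b = n * (2 * Real.pi * I) := by rw [hn]; ring
  have h2 : ‖a - b‖ = |(n : ℝ)| * (2 * Real.pi) := by
    rw [h1]
    simp [abs_of_pos Real.pi_pos]
  rw [h2] at hd
  have h3 : |(n : ℝ)| < 1 := by
    by_contra hc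
    push Not at hc
    nlinarith [Real.pi_pos]
  have h4 : n = 0 := by
    have : |n| < 1 := by exact_mod_cast h3
    exact Int.abs_lt_one_iff.1 this
  rw [h4] at h1
  simpa [sub_eq_zero] using h1

lemma eq_of_exp_eq {X : Type*} [TopologicalSpace X] {S : Set X} (hS : IsPreconnected S)
    {g : X → ℂ} (hc : ContinuousOn g S) {c : ℂ} (h1 : ∀ x ∈ S, exp (g x) = c) {x y : X}
    (hx : x ∈ S) (hy : y ∈ S) : g x = g y := by
  refine hS.induction₂ (fun x y => g x = g y) ?_ ?_ ?_ hx hy
  · intro x hx
    have h2 := (hc x hx)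
    have h3 : ∀ᶠ y in 𝓝[S] x, dist (g y) (g x) < 2 * Real.pi :=
      h2.eventually (Metric.ball_mem_nhds _ (by positivity))
    filter_upwards [h3, self_mem_nhdsWithin] with y hy hyS
    exact (exp_eq_near (by rw [h1 x hx, h1 y hyS]) (by rwa [dist_eq_norm] at hy)).symm
  · intro x y z _ _ _ h1 h2; exact h1.trans h2
  · intro x y _ _ h; exact h.symm

/-! ### Continuous logarithms -/

/-- `f` has a continuous logarithm on `K`. -/
def HasLog (K : Set ℂ) (f : ℂ → ℂ) : Prop :=
  ∃ L : ℂ → ℂ, ContinuousOn L K ∧ ∀ x ∈ K, exp (L x) = f x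

lemma HasLog.mono {K K' : Set ℂ} {f : ℂ → ℂ} (h : HasLog K f) (hK : K' ⊆ K) : HasLog K' f := by
  obtain ⟨L, h1, h2⟩ := h
  exact ⟨L, h1.mono hK, fun x hx => h2 x (hK hx)⟩

lemma HasLog.congr {K : Set ℂ} {f g : ℂ → ℂ} (h : HasLog K f) (hfg : ∀ x ∈ K, f x = g x) :
    HasLog K g := by
  obtain ⟨L, h1, h2⟩ := h
  exact ⟨L, h1, fun x hx => by rw [h2 x hx, hfg x hx]⟩

lemma HasLog.mul {K : Set ℂ} {f g : ℂ → ℂ} (h : HasLog K f) (h' : HasLog K g) :
    HasLog K (fun x => f x * g x) := by
  obtain ⟨L, h1, h2⟩ := h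
  obtain ⟨L', h1', h2'⟩ := h'
  exact ⟨fun x => L x + L' x, h1.add h1', fun x hx => by rw [exp_add, h2 x hx, h2' x hx]⟩

lemma HasLog.inv {K : Set ℂ} {f : ℂ → ℂ} (h : HasLog K f) : HasLog K (fun x => (f x)⁻¹) := by
  obtain ⟨L, h1, h2⟩ := h
  exact ⟨fun x => -L x, h1.neg, fun x hx => by rw [exp_neg, h2 x hx]⟩

/-- The function `(ζ - z) / (ζ - w)`. -/
noncomputable def qq (z w : ℂ) (ζ : ℂ) : ℂ := (ζ - z) / (ζ - w)

lemma qq_mul {x y z ζ : ℂ} (hy : ζ ≠ y) : qq x y ζ * qq y z ζ = qq x z ζ := by
  unfold qq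
  have : ζ - y ≠ 0 := sub_ne_zero.2 hy
  field_simp

lemma qq_inv {x y ζ : ℂ} : (qq x y ζ)⁻¹ = qq y x ζ := by
  unfold qq
  rw [inv_div]

lemma HasLog.trans {K : Set ℂ} {x y z : ℂ} (hy : y ∉ K) (h1 : HasLog K (qq x y))
    (h2 : HasLog K (qq y z)) : HasLog K (qq x z) :=
  (h1.mul h2).congr fun _ hζ => qq_mul (fun h => hy (h ▸ hζ))

lemma HasLog.symm {K : Set ℂ} {x y : ℂ} (h1 : HasLog K (qq x y)) : HasLog K (qq y x) :=
  h1.inv.congr fun _ _ => qq_inv

/-- The principal logarithm works if `z` and `w` are close to each other compared with `K`. -/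
lemma hasLog_near {K : Set ℂ} {z w : ℂ} (h : ∀ ζ ∈ K, ‖z - w‖ < ‖ζ - w‖) :
    ContinuousOn (fun ζ => log (qq z w ζ)) K ∧ ∀ ζ ∈ K, exp (log (qq z w ζ)) = qq z w ζ := by
  have hne : ∀ ζ ∈ K, ζ - w ≠ 0 := by
    intro ζ hζ h0
    have := h ζ hζ
    rw [h0, norm_zero] at this
    exact absurd this (not_lt.2 (norm_nonneg _))
  have hslit : ∀ ζ ∈ K, qq z w ζ ∈ slitPlane := by
    intro ζ hζ
    have h1 : qq z w ζ = 1 + (w - z) / (ζ - w) := by
      unfold qq
      have := hne ζ hζ
      field_simp
      ring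
    rw [h1]
    refine mem_slitPlane_of_norm_lt_one ?_
    rw [norm_div, div_lt_one (norm_pos_iff.2 (hne ζ hζ)), norm_sub_rev w z]
    exact h ζ hζ
  refine ⟨?_, fun ζ hζ => exp_log (slitPlane_ne_zero (hslit ζ hζ))⟩
  refine ContinuousOn.clog ?_ hslit
  unfold qq
  exact ContinuousOn.div (by fun_prop) (by fun_prop) hne

lemma HasLog.of_near {K : Set ℂ} {z w : ℂ} (h : ∀ ζ ∈ K, ‖z - w‖ < ‖ζ - w‖) :
    HasLog K (qq z w) := ⟨_, (hasLog_near h).1, (hasLog_near h).2⟩

/-- **Easy half of Eilenberg's criterion.** -/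
theorem hasLog_of_preconnected {K S : Set ℂ} (hK : IsClosed K) (hS : IsPreconnected S)
    (hSK : Disjoint S K) {z w : ℂ} (hz : z ∈ S) (hw : w ∈ S) : HasLog K (qq z w) := by
  have hnot : ∀ x ∈ S, x ∉ K := fun x hx => disjoint_left.1 hSK hx
  refine hS.induction₂ (fun x y => HasLog K (qq x y)) ?_ ?_ ?_ hz hw
  · intro x hx
    obtain ⟨r, hr, hball⟩ := Metric.isOpen_iff.1 hK.isOpen_compl x (hnot x hx)
    have h3 : ∀ᶠ y in 𝓝[S] x, y ∈ Metric.ball x (r / 2) :=
      mem_nhdsWithin_of_mem_nhds (Metric.ball_mem_nhds _ (by positivity))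
    filter_upwards [h3] with y hy
    refine HasLog.of_near fun ζ hζ => ?_
    have h4 : r ≤ ‖ζ - x‖ := by
      by_contra hc
      push Not at hc
      exact hball (by rw [Metric.mem_ball, dist_eq_norm]; exact hc) hζ
    rw [Metric.mem_ball, dist_eq_norm] at hy
    have h5 : ‖ζ - x‖ ≤ ‖ζ - y‖ + ‖y - x‖ := by
      have := norm_add_le (ζ - y) (y - x)
      rwa [sub_add_sub_cancel] at this
    rw [norm_sub_rev x y]
    linarith
  · intro x y z _ hy _ h1 h2
    exact HasLog.trans (hnot y hy) h1 h2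
  · intro x y _ _ h; exact h.symm

/-! ### The hard half -/

lemma isSimplyConnected_univ_complex : IsSimplyConnected (univ : Set ℂ) := by
  have : ContractibleSpace (univ : Set ℂ) := (Homeomorph.Set.univ ℂ).contractibleSpace
  exact (inferInstance : SimplyConnectedSpace (univ : Set ℂ))

lemma exists_log_plane {φ : ℂ → ℂ} (hc : Continuous φ) (h0 : ∀ z, φ z ≠ 0) :
    ∃ ψ : ℂ → ℂ, Continuous ψ ∧ ∀ z, exp (ψ z) = φ z := by
  obtain ⟨f, hf, he⟩ := exists_continuousOn_eqOn_exp_comp isSimplyConnected_univ_complex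
    isOpen_univ hc.continuousOn (by rintro ⟨x, -, hx⟩; exact h0 x hx)
  exact ⟨f, by simpa [continuousOn_univ] using hf, fun z => he (mem_univ z)⟩

/-- A continuous nonvanishing function on the plane cannot be equal to `ζ - z` far away. -/
lemma no_winding {φ : ℂ → ℂ} (hc : Continuous φ) (h0 : ∀ z, φ z ≠ 0) (z : ℂ) {R : ℝ} (hR : 0 < R)
    (h : ∀ ζ, ‖ζ - z‖ = R → φ ζ = ζ - z) : False := by
  obtain ⟨ψ, hψ, he⟩ := exists_log_plane hc h0
  set g : ℝ → ℂ := fun t => ψ (z + R * exp (t * I)) - t * I with hg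
  have hgc : Continuous g := by
    have : Continuous fun t : ℝ => z + (R : ℂ) * exp (t * I) := by fun_prop
    exact (hψ.comp this).sub (by fun_prop)
  have hg1 : ∀ t, exp (g t) = R := by
    intro t
    have h1 : ‖(z + R * exp (t * I)) - z‖ = R := by
      rw [add_sub_cancel_left, norm_mul, norm_exp_ofReal_mul_I, mul_one, norm_real,
        Real.norm_of_nonneg hR.le]
    rw [hg]
    simp only
    rw [exp_sub, he, h _ h1, add_sub_cancel_left, mul_div_assoc, div_self (exp_ne_zero _), mul_one]
  have h2 := eq_of_exp_eq isPreconnected_univ hgc.continuousOn (fun t _ => hg1 t)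
    (mem_univ (0 : ℝ)) (mem_univ (2 * Real.pi))
  rw [hg] at h2
  simp only at h2
  have h3 : exp (((2 * Real.pi : ℝ) : ℂ) * I) = 1 := by
    push_cast
    exact exp_two_pi_mul_I
  rw [h3] at h2
  have h4 : exp (((0 : ℝ) : ℂ) * I) = 1 := by simp
  rw [h4] at h2
  have h5 : (2 * Real.pi * I : ℂ) = 0 := by
    push_cast at h2
    linear_combination h2
  exact Complex.two_pi_I_ne_zero h5

lemma preconnected_outside (c : ℂ) {R : ℝ} (hR : 0 < R) : IsPreconnected {y : ℂ | R < ‖y - c‖} := by
  have h1 : {y : ℂ | R < ‖y - c‖} = (fun w => c + exp w) '' {w : ℂ | Real.log R < w.re} := by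
    ext y
    simp only [mem_ofPred_eq, mem_image]
    constructor
    · intro h
      have h0 : y - c ≠ 0 := norm_pos_iff.1 (hR.trans h)
      refine ⟨log (y - c), ?_, by rw [exp_log h0]; ring⟩
      rw [log_re]
      exact Real.log_lt_log hR h
    · rintro ⟨w, hw, rfl⟩
      rw [add_sub_cancel_left, norm_exp]
      exact (Real.log_lt_iff_lt_exp hR).1 hw
  rw [h1]
  refine IsPreconnected.image ?_ _ (by fun_prop)
  exact (convex_halfSpace_re_gt _).isPreconnected

/-- **Eilenberg's criterion.** -/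
theorem joined_of_hasLog {K : Set ℂ} (hK : IsCompact K) {z w : ℂ} (hz : z ∉ K) (hw : w ∉ K)
    (h : HasLog K (qq z w)) : JoinedIn Kᶜ z w := by
  have hopen : IsOpen Kᶜ := hK.isClosed.isOpen_compl
  -- it is enough that `w` is in the component of `z`
  have key : ∀ z w : ℂ, z ∉ K → w ∉ K → HasLog K (qq z w) →
      Bornology.IsBounded (connectedComponentIn Kᶜ z) → w ∈ connectedComponentIn Kᶜ z := by
    intro z w hz hw h hb
    by_contra hwU
    set U := connectedComponentIn Kᶜ z with hU
    have hUo : IsOpen U := hopen.connectedComponentIn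
    have hzU : z ∈ U := mem_connectedComponentIn hz
    obtain ⟨L, hL, hLe⟩ := h
    -- frontier of `U` in `K`
    have hfr : frontier U ⊆ K := by
      intro x hx
      by_contra hxK
      have h1 : x ∈ closure U := hx.1
      have h2 : x ∉ U := by
        intro hxU
        rw [hUo.frontier_eq] at hx
        exact hx.2 hxU
      -- the component of `x` meets `U`
      have h3 : IsOpen (connectedComponentIn Kᶜ x) := hopen.connectedComponentIn
      obtain ⟨y, hy1, hy2⟩ := mem_closure_iff.1 h1 _ h3 (mem_connectedComponentIn hxK)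
      have h4 := connectedComponentIn_eq hy1
      have h5 := connectedComponentIn_eq (x := z) (y := y) hy2
      apply h2
      rw [hU, h5, ← h4]
      exact mem_connectedComponentIn hxK
    -- extend the logarithm
    obtain ⟨g, hg⟩ := ContinuousMap.exists_restrict_eq hK.isClosed
      (⟨K.domRestrict L, continuousOn_iff_continuous_domRestrict.1 hL⟩ : C(K, ℂ))
    have hgL : ∀ x ∈ K, g x = L x := by
      intro x hx
      exact congrArg (fun f : C(K, ℂ) => f ⟨x, hx⟩) hg
    classical
    set φ : ℂ → ℂ := fun ζ => if ζ ∈ U then (ζ - w) * exp (g ζ) else ζ - z with hφ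
    have hφc : Continuous φ := by
      refine Continuous.if ?_ ?_ ?_
      · intro a ha
        have haK : a ∈ K := hfr ha
        rw [hgL a haK, hLe a haK]
        unfold qq
        have : a - w ≠ 0 := sub_ne_zero.2 (fun h => hw (h ▸ haK))
        field_simp
      · exact (by fun_prop : Continuous fun ζ : ℂ => ζ - w).mul
          (Complex.continuous_exp.comp g.continuous)
      · fun_prop
    have hφ0 : ∀ ζ, φ ζ ≠ 0 := by
      intro ζ
      simp only [hφ]
      split_ifs with hζ
      · exact mul_ne_zero (sub_ne_zero.2 fun h => hwU (h ▸ hζ)) (exp_ne_zero _)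
      · exact sub_ne_zero.2 fun h => hζ (h ▸ hzU)
    obtain ⟨r, hr⟩ := hb.subset_closedBall z
    refine no_winding hφc hφ0 z (R := max r 0 + 1) (by positivity) ?_
    intro ζ hζ
    simp only [hφ]
    rw [if_neg]
    intro hζU
    have h1 := hr hζU
    rw [Metric.mem_closedBall, dist_eq_norm, hζ] at h1
    have := le_max_left r 0
    linarith
  -- conclusion
  have hcomp : w ∈ connectedComponentIn Kᶜ z := by
    by_cases hb : Bornology.IsBounded (connectedComponentIn Kᶜ z)
    · exact key z w hz hw h hb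
    by_cases hb' : Bornology.IsBounded (connectedComponentIn Kᶜ w)
    · have h1 := key w z hw hz h.symm hb'
      rw [← connectedComponentIn_eq h1]
      exact mem_connectedComponentIn hw
    -- both unbounded: they meet the complement of a large ball
    · obtain ⟨r, hr⟩ := hK.isBounded.subset_closedBall 0
      have hout : ∀ x : ℂ, ¬ Bornology.IsBounded (connectedComponentIn Kᶜ x) →
          ∃ y ∈ connectedComponentIn Kᶜ x, max r 1 < ‖y‖ := by
        intro x hx
        by_contra hc
        push Not at hc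
        apply hx
        refine (Metric.isBounded_closedBall (x := (0 : ℂ)) (r := max r 1)).subset ?_
        intro y hy
        rw [Metric.mem_closedBall, dist_zero_right]
        exact hc y hy
      obtain ⟨y1, hy1, hy1r⟩ := hout z hb
      obtain ⟨y2, hy2, hy2r⟩ := hout w hb'
      have hconn : IsPreconnected {y : ℂ | max r 1 < ‖y - 0‖} :=
        preconnected_outside 0 (lt_of_lt_of_le one_pos (le_max_right _ _))
      have hsub : {y : ℂ | max r 1 < ‖y - 0‖} ⊆ Kᶜ := by
        intro y hy hyK
        have h1 := hr hyK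
        rw [Metric.mem_closedBall, dist_eq_norm] at h1
        exact absurd (lt_of_le_of_lt (le_max_left r 1) hy) (not_lt.2 h1)
      have hm1 : y1 ∈ {y : ℂ | max r 1 < ‖y - 0‖} := by
        rw [mem_ofPred_eq, sub_zero]; exact hy1r
      have hm2 : y2 ∈ {y : ℂ | max r 1 < ‖y - 0‖} := by
        rw [mem_ofPred_eq, sub_zero]; exact hy2r
      have h5 := hconn.subset_connectedComponentIn hm1 hsub hm2
      rw [← connectedComponentIn_eq hy1] at h5
      rw [connectedComponentIn_eq h5, ← connectedComponentIn_eq hy2]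
      exact mem_connectedComponentIn hw
  -- connected open sets are path connected
  have h1 : IsConnected (connectedComponentIn Kᶜ z) := isConnected_connectedComponentIn_iff.2 hz
  have h2 : IsPathConnected (connectedComponentIn Kᶜ z) :=
    (hopen.connectedComponentIn).isConnected_iff_isPathConnected.1 h1
  exact (h2.joinedIn z (mem_connectedComponentIn hz) w hcomp).mono
    (connectedComponentIn_subset _ _)

/-- `JoinedIn` gives the logarithm. -/
theorem hasLog_of_joined {K : Set ℂ} (hK : IsClosed K) {z w : ℂ} (h : JoinedIn Kᶜ z w) :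
    HasLog K (qq z w) := by
  obtain ⟨γ, hγ⟩ := h
  refine hasLog_of_preconnected hK (S := range γ) (isPreconnected_range γ.continuous) ?_
    ⟨0, γ.source⟩ ⟨1, γ.target⟩
  rw [Set.disjoint_left]
  rintro _ ⟨t, rfl⟩ ht
  exact hγ t ht

/-- Gluing of logarithms along a preconnected intersection. -/
lemma HasLog.union {A B : Set ℂ} (hA : IsClosed A) (hB : IsClosed B) (hAB : IsPreconnected (A ∩ B))
    {f : ℂ → ℂ} (h1 : HasLog A f) (h2 : HasLog B f) : HasLog (A ∪ B) f := by
  classical
  obtain ⟨L1, c1, e1⟩ := h1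
  obtain ⟨L2, c2, e2⟩ := h2
  -- the difference is constant on the intersection
  have hconst : ∃ c : ℂ, exp c = 1 ∧ ∀ x ∈ A ∩ B, L1 x = L2 x + c := by
    rcases (A ∩ B).eq_empty_or_nonempty with h | ⟨x0, hx0⟩
    · exact ⟨0, exp_zero, fun x hx => by rw [h] at hx; exact hx.elim⟩
    · refine ⟨L1 x0 - L2 x0, ?_, ?_⟩
      · rw [exp_sub, e1 x0 hx0.1, e2 x0 hx0.2, div_self]
        rw [← e1 x0 hx0.1]; exact exp_ne_zero _
      · intro x hx
        have hc : ContinuousOn (fun x => L1 x - L2 x) (A ∩ B) :=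
          (c1.mono inter_subset_left).sub (c2.mono inter_subset_right)
        have h3 := eq_of_exp_eq hAB hc (c := 1) (fun y hy => by
          rw [exp_sub, e1 y hy.1, e2 y hy.2, div_self]
          rw [← e1 y hy.1]; exact exp_ne_zero _) hx hx0
        rw [← h3]; ring
  obtain ⟨c, hc1, hc⟩ := hconst
  refine ⟨fun x => if x ∈ A then L1 x else L2 x + c, ?_, ?_⟩
  · refine ContinuousOn.union_of_isClosed ?_ ?_ hA hB
    · exact c1.congr fun x hx => if_pos hx
    · have hc2 : ContinuousOn (fun x => L2 x + c) B := c2.add continuousOn_const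
      refine hc2.congr fun x hx => ?_
      by_cases hxA : x ∈ A
      · simp only [if_pos hxA]; exact hc x ⟨hxA, hx⟩
      · simp only [if_neg hxA]
  · intro x hx
    by_cases hxA : x ∈ A
    · simp only [if_pos hxA]; exact e1 x hxA
    · simp only [if_neg hxA]
      rw [exp_add, hc1, mul_one]
      exact e2 x (hx.resolve_left hxA)

/-- **Janiszewski's theorem.** -/
theorem janiszewski {A B : Set ℂ} (hA : IsCompact A) (hB : IsCompact B)
    (hAB : IsPreconnected (A ∩ B)) {z w : ℂ} (h1 : JoinedIn Aᶜ z w) (h2 : JoinedIn Bᶜ z w) :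
    JoinedIn (A ∪ B)ᶜ z w := by
  refine joined_of_hasLog (hA.union hB) ?_ ?_ ?_
  · rintro (h | h)
    · exact h1.source_mem h
    · exact h2.source_mem h
  · rintro (h | h)
    · exact h1.target_mem h
    · exact h2.target_mem h
  · exact HasLog.union hA.isClosed hB.isClosed hAB (hasLog_of_joined hA.isClosed h1)
      (hasLog_of_joined hB.isClosed h2)

end Pool.Agent.H14.Jordan
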