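import Pool.Agent.H14.Jordan.Triv

set_option autoImplicit false
open Set Topology Filter Complex

/-! Jordan curves as `2π`-periodic loops, and Jordan domains: the frontier of every component of the
complement is the whole curve; small sets do not separate points far from them; uniform local
connectivity. -/

namespace Pool.Agent.H14.Jordan

open scoped Real

/-- A Jordan curve, parametrised by a `2π`-periodic function. -/
structure IsLoop (ρ : ℝ → ℂ) : Prop where
  cont : Continuous ρ
  inj : ∀ s t, ρ s = ρ t ↔ ∃ n : ℤ, s = t + n * (2 * π)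

lemma isLoop_of_circle {J : Circle → ℂ} (hJ : Continuous J) (hi : Function.Injective J) :
    IsLoop (fun t => J (Circle.exp t)) where
  cont := hJ.comp Circle.exp.continuous
  inj s t := by rw [hi.eq_iff, Circle.exp_eq_exp]

lemma range_circle {J : Circle → ℂ} : range (fun t : ℝ => J (Circle.exp t)) = range J := by
  ext x
  constructor
  · rintro ⟨t, rfl⟩; exact ⟨_, rfl⟩
  · rintro ⟨z, rfl⟩
    exact ⟨Complex.arg z, by simp only [Circle.exp_arg]⟩

namespace IsLoop
variable {ρ : ℝ → ℂ} (h : IsLoop ρ)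
include h

lemma add_int (t : ℝ) (n : ℤ) : ρ (t + n * (2 * π)) = ρ t := (h.inj _ _).2 ⟨n, rfl⟩

lemma add_two_pi (t : ℝ) : ρ (t + 2 * π) = ρ t := by simpa using h.add_int t 1

/-- Every point of the curve has a parameter in a given half open interval of length `2π`. -/
lemma exists_mem_Ico (a t : ℝ) : ∃ s ∈ Ico a (a + 2 * π), ρ s = ρ t := by
  obtain ⟨s, hs1, hs2⟩ : ∃ n : ℤ, t + n * (2 * π) ∈ Ico a (a + 2 * π) := by
    have := existsUnique_add_zsmul_mem_Ico Real.two_pi_pos t a
    obtain ⟨n, hn, -⟩ := this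
    exact ⟨n, by simpa using hn⟩
  exact ⟨_, ⟨hs1, hs2⟩, h.add_int t s⟩

lemma injOn {a b : ℝ} (hab : b < a + 2 * π) : InjOn ρ (Icc a b) := by
  intro s hs t ht hst
  obtain ⟨n, hn⟩ := (h.inj s t).1 hst
  have hn0 : n = 0 := by
    have h1 : |(n : ℝ)| * (2 * π) < 2 * π := by
      have : |(n : ℝ)| * (2 * π) = |s - t| := by
        rw [hn, add_sub_cancel_left, abs_mul, abs_of_pos Real.two_pi_pos]
      rw [this, abs_lt]
      constructor <;> linarith [hs.1, hs.2, ht.1, ht.2]
    have h2 : |(n : ℝ)| < 1 := by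
      by_contra hc
      push Not at hc
      nlinarith [Real.two_pi_pos]
    have : |n| < 1 := by exact_mod_cast h2
    exact Int.abs_lt_one_iff.1 this
  rw [hn0] at hn
  simpa using hn

lemma arc_triv {a b : ℝ} (hab : b < a + 2 * π) : Triv (ρ '' Icc a b) :=
  Triv.arc h.cont.continuousOn (h.injOn hab)

lemma arc_compact (a b : ℝ) : IsCompact (ρ '' Icc a b) := isCompact_Icc.image h.cont

lemma arc_preconnected (a b : ℝ) : IsPreconnected (ρ '' Icc a b) :=
  isPreconnected_Icc.image _ h.cont.continuousOn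

lemma range_eq (a : ℝ) : range ρ = ρ '' Icc a (a + 2 * π) := by
  apply Subset.antisymm
  · rintro _ ⟨t, rfl⟩
    obtain ⟨s, hs, hst⟩ := h.exists_mem_Ico a t
    exact ⟨s, Ico_subset_Icc_self hs, hst⟩
  · exact image_subset_range _ _

lemma isCompact_range : IsCompact (range ρ) := by
  rw [h.range_eq 0]; exact h.arc_compact _ _

lemma range_eq_union {a b : ℝ} (h1 : a ≤ b) (h2 : b ≤ a + 2 * π) :
    range ρ = ρ '' Icc a b ∪ ρ '' Icc b (a + 2 * π) := by
  rw [h.range_eq a, ← image_union, Icc_union_Icc_eq_Icc h1 h2]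

lemma inter_arcs {a b : ℝ} (h1 : a < b) (h2 : b < a + 2 * π) :
    ρ '' Icc a b ∩ ρ '' Icc b (a + 2 * π) = {ρ a, ρ b} := by
  apply Subset.antisymm
  · rintro _ ⟨⟨s, hs, rfl⟩, ⟨t, ht, hst⟩⟩
    obtain ⟨n, hn⟩ := (h.inj t s).1 hst
    -- `t - s ∈ [0, 2π]`
    have hn01 : n = 0 ∨ n = 1 := by
      have e1 : -1 < (n : ℝ) := by
        by_contra hc
        push Not at hc
        have : (n : ℝ) * (2 * π) ≤ -1 * (2 * π) :=
          mul_le_mul_of_nonneg_right hc Real.two_pi_pos.le
        linarith [hs.1, hs.2, ht.1, ht.2, Real.two_pi_pos]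
      have e2 : (n : ℝ) < 2 := by
        by_contra hc
        push Not at hc
        have : 2 * (2 * π) ≤ (n : ℝ) * (2 * π) :=
          mul_le_mul_of_nonneg_right hc Real.two_pi_pos.le
        linarith [hs.1, hs.2, ht.1, ht.2, Real.two_pi_pos]
      have e1' : -1 < n := by exact_mod_cast e1
      have e2' : n < 2 := by exact_mod_cast e2
      omega
    rcases hn01 with rfl | rfl
    · right
      have : t = s := by simpa using hn
      rw [mem_singleton_iff]
      congr 1
      exact le_antisymm hs.2 (this ▸ ht.1)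
    · left
      have : t = s + 2 * π := by simpa using hn
      congr 1
      exact le_antisymm (by linarith [ht.2]) hs.1
  · rintro x (rfl | rfl)
    · exact ⟨⟨a, ⟨le_rfl, h1.le⟩, rfl⟩, ⟨a + 2 * π, ⟨h2.le, le_rfl⟩, h.add_two_pi a⟩⟩
    · exact ⟨⟨b, ⟨h1.le, le_rfl⟩, rfl⟩, ⟨b, ⟨le_rfl, h2.le⟩, rfl⟩⟩

/-- The point `ρ t` is not on a sub-arc whose parameters avoid `t` modulo `2π`. -/
lemma notMem_arc {t ε : ℝ} (hε : 0 < ε) : ρ t ∉ ρ '' Icc (t + ε) (t - ε + 2 * π) := by
  rintro ⟨s, hs, hst⟩
  obtain ⟨n, hn⟩ := (h.inj s t).1 hst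
  have e1 : 0 < (n : ℝ) := by
    by_contra hc
    push Not at hc
    have : (n : ℝ) * (2 * π) ≤ 0 := mul_nonpos_of_nonpos_of_nonneg hc Real.two_pi_pos.le
    linarith [hs.1]
  have e2 : (n : ℝ) < 1 := by
    by_contra hc
    push Not at hc
    have : 1 * (2 * π) ≤ (n : ℝ) * (2 * π) := mul_le_mul_of_nonneg_right hc Real.two_pi_pos.le
    linarith [hs.2]
  have e1' : 0 < n := by exact_mod_cast e1
  have e2' : n < 1 := by exact_mod_cast e2
  omega

end IsLoop

/-- A set `V`, open, whose frontier is disjoint from the preconnected set `S`, and which meets `S`,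
contains `S`. -/
lemma subset_of_frontier {S V : Set ℂ} (hS : IsPreconnected S) (hf : Disjoint (frontier V) S)
    (hne : (S ∩ V).Nonempty) : S ⊆ V := by
  by_contra hc
  rw [not_subset] at hc
  obtain ⟨x, hxS, hxV⟩ := hc
  obtain ⟨y, hyS, hyV⟩ := hne
  have h1 : S ⊆ interior V ∪ (closure V)ᶜ := by
    intro z hz
    by_cases h : z ∈ closure V
    · left
      by_contra hi
      exact disjoint_left.1 hf ⟨h, hi⟩ hz
    · right; exact h
  obtain ⟨z, hzS, hz1, hz2⟩ := hS _ _ isOpen_interior isClosed_closure.isOpen_compl h1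
    ⟨y, hyS, by
      rcases h1 hyS with h | h
      · exact h
      · exact absurd (subset_closure hyV) h⟩
    ⟨x, hxS, by
      rcases h1 hxS with h | h
      · exact absurd (interior_subset h) hxV
      · exact h⟩
  exact hz2 (subset_closure (interior_subset hz1))

namespace IsLoop
variable {ρ : ℝ → ℂ} (h : IsLoop ρ)
include h

/-- The frontier of every union of complementary components is the whole curve. -/
theorem frontier_eq {V : Set ℂ} (hne : V.Nonempty) (hd : Disjoint V (range ρ))
    (hf : frontier V ⊆ range ρ) : frontier V = range ρ := by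
  by_contra hc
  have : ¬ range ρ ⊆ frontier V := fun hc' => hc (Subset.antisymm hf hc')
  rw [not_subset] at this
  obtain ⟨_, ⟨t, rfl⟩, ht⟩ := this
  -- a small piece of the curve around `ρ t` misses the frontier
  have h1 : ∀ᶠ s in 𝓝 t, ρ s ∉ frontier V :=
    h.cont.continuousAt.eventually (isClosed_frontier.isOpen_compl.mem_nhds ht)
  obtain ⟨ε, hε, hball⟩ := Metric.eventually_nhds_iff.1 h1
  set e := min (ε / 2) 1 with he
  have he0 : 0 < e := by positivity
  have he1 : e < ε := lt_of_le_of_lt (min_le_left _ _) (by linarith)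
  have hf' : frontier V ⊆ ρ '' Icc (t + e) (t - e + 2 * π) := by
    intro x hx
    obtain ⟨s, rfl⟩ := hf hx
    obtain ⟨s', hs', hss⟩ := h.exists_mem_Ico (t - e) s
    rw [← hss] at hx ⊢
    refine ⟨s', ⟨?_, hs'.2.le.trans (by linarith)⟩, rfl⟩
    by_contra hc
    push Not at hc
    exact hball (by rw [Real.dist_eq, abs_lt]; constructor <;> linarith [hs'.1]) hx
  have h2 : IsPreconnected (ρ '' Icc (t + e) (t - e + 2 * π))ᶜ :=
    ((h.arc_triv (by linarith)).isPathConnected_compl (h.arc_compact _ _)).isConnected.isPreconnected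
  have h3 : (ρ '' Icc (t + e) (t - e + 2 * π))ᶜ ⊆ V := by
    refine subset_of_frontier h2 ?_ ?_
    · rw [disjoint_left]; intro x hx hx'; exact hx' (hf' hx)
    · obtain ⟨v, hv⟩ := hne
      refine ⟨v, fun hv' => ?_, hv⟩
      exact disjoint_left.1 hd hv (image_subset_range _ _ hv')
  exact disjoint_left.1 hd (h3 (h.notMem_arc he0)) ⟨t, rfl⟩

end IsLoop

end Pool.Agent.H14.Jordan
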