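import Pool.Agent.H14.Jordan.Loop

set_option autoImplicit false
open Set Topology Filter Complex
open scoped Real

/-! Uniform local statements for Jordan curves and Jordan domains. -/

namespace Pool.Agent.H14.Jordan

namespace IsLoop
variable {ρ : ℝ → ℂ} (h : IsLoop ρ)
include h

/-- Uniform continuity. -/
lemma uniform {ε : ℝ} (hε : 0 < ε) : ∃ η > 0, ∀ s t, |s - t| < η → dist (ρ s) (ρ t) < ε := by
  have h1 : UniformContinuousOn ρ (Icc (-(2 * π)) (4 * π)) :=
    isCompact_Icc.uniformContinuousOn_of_continuous h.cont.continuousOn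
  obtain ⟨η, hη, h2⟩ := Metric.uniformContinuousOn_iff.1 h1 ε hε
  have hpi := Real.two_pi_pos
  refine ⟨min η 1, by positivity, fun s t hst => ?_⟩
  obtain ⟨n, hn⟩ : ∃ n : ℤ, t + n * (2 * π) ∈ Ico 0 (0 + 2 * π) := by
    obtain ⟨n, hn, -⟩ := existsUnique_add_zsmul_mem_Ico Real.two_pi_pos t 0
    exact ⟨n, by simpa using hn⟩
  rw [← h.add_int s n, ← h.add_int t n]
  rw [abs_lt] at hst
  have e1 := min_le_left η 1
  have e2 := min_le_right η 1
  have e3 := Real.pi_gt_three
  refine h2 _ ⟨?_, ?_⟩ _ ⟨?_, ?_⟩ ?_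
  · linarith [hn.1]
  · linarith [hn.2]
  · linarith [hn.1]
  · linarith [hn.2]
  · rw [Real.dist_eq, abs_lt]; constructor <;> linarith

/-- Uniform continuity of the inverse. -/
lemma uniform_inv {η : ℝ} (hη : 0 < η) : ∃ δ > 0, ∀ s t, dist (ρ s) (ρ t) < δ →
    ∃ n : ℤ, |s - t - n * (2 * π)| < η := by
  have hpi := Real.two_pi_pos
  -- compactness
  set K : Set (ℝ × ℝ) := (Icc 0 (2 * π)) ×ˢ ({u | η ≤ |u|} ∩ Icc (-π) π) with hK
  have hKc : IsCompact K := by
    refine isCompact_Icc.prod ?_
    exact isCompact_Icc.inter_left (isClosed_le continuous_const continuous_abs)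
  set g : ℝ × ℝ → ℝ := fun p => dist (ρ (p.1 + p.2)) (ρ p.1) with hg
  have hgc : Continuous g := by
    have := h.cont
    fun_prop
  have hpos : ∀ p ∈ K, 0 < g p := by
    intro p hp
    rw [hg]
    simp only
    rw [dist_pos]
    intro heq
    obtain ⟨n, hn⟩ := (h.inj _ _).1 heq
    have h2 : p.2 = n * (2 * π) := by linarith
    have hn0 : n ≠ 0 := by
      rintro rfl
      have h3 := hp.2.1
      simp only [mem_ofPred_eq] at h3
      rw [h2] at h3
      simp at h3
      linarith
    have h4 : (1 : ℝ) ≤ |(n : ℝ)| := by exact_mod_cast Int.one_le_abs hn0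
    have h5 : |p.2| ≤ π := abs_le.2 hp.2.2
    rw [h2, abs_mul, abs_of_pos hpi] at h5
    nlinarith [Real.pi_pos]
  obtain ⟨δ, hδ, hδK⟩ : ∃ δ > 0, ∀ p ∈ K, δ ≤ g p := by
    rcases K.eq_empty_or_nonempty with he | hne
    · exact ⟨1, one_pos, fun p hp => by rw [he] at hp; exact hp.elim⟩
    · obtain ⟨p, hp, hmin⟩ := hKc.exists_isMinOn hne hgc.continuousOn
      exact ⟨g p, hpos p hp, fun q hq => hmin hq⟩
  refine ⟨δ, hδ, fun s t hst => ?_⟩
  obtain ⟨m, hm⟩ : ∃ n : ℤ, t + n * (2 * π) ∈ Ico 0 (0 + 2 * π) := by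
    obtain ⟨n, hn, -⟩ := existsUnique_add_zsmul_mem_Ico Real.two_pi_pos t 0
    exact ⟨n, by simpa using hn⟩
  obtain ⟨n, hn⟩ : ∃ n : ℤ, (s - t) + n * (2 * π) ∈ Ico (-π) (-π + 2 * π) := by
    obtain ⟨n, hn, -⟩ := existsUnique_add_zsmul_mem_Ico Real.two_pi_pos (s - t) (-π)
    exact ⟨n, by simpa using hn⟩
  refine ⟨-n, ?_⟩
  push_cast
  have e0 : s - t - -(n : ℝ) * (2 * π) = (s - t) + n * (2 * π) := by ring
  rw [e0]
  by_contra hc
  push Not at hc
  have h6 := hδK (t + m * (2 * π), (s - t) + n * (2 * π))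
    ⟨⟨hm.1, by linarith [hm.2]⟩, hc, ⟨hn.1, by linarith [hn.2]⟩⟩
  rw [hg] at h6
  simp only at h6
  have e1 : t + m * (2 * π) + (s - t + n * (2 * π)) = s + ((m + n : ℤ) : ℝ) * (2 * π) := by
    push_cast; ring
  rw [e1, h.add_int, h.add_int] at h6
  linarith

/-- Small subsets of the curve lie in small arcs. -/
lemma small_arc {ε : ℝ} (hε : 0 < ε) : ∃ δ > 0, ∀ x ∈ range ρ, ∃ a b, a < b ∧ b < a + 2 * π ∧
    (∀ y ∈ range ρ, dist y x < δ → y ∈ ρ '' Ioo a b) ∧ (∀ y ∈ ρ '' Icc a b, dist y x < ε) := by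
  obtain ⟨η, hη, h1⟩ := h.uniform hε
  set η' := min (η / 2) 1 with hη'
  have hη'0 : 0 < η' := by positivity
  have e1 := min_le_left (η / 2) 1
  have e2 := min_le_right (η / 2) 1
  have e3 := Real.pi_gt_three
  obtain ⟨δ, hδ, h2⟩ := h.uniform_inv hη'0
  refine ⟨δ, hδ, ?_⟩
  rintro _ ⟨t, rfl⟩
  refine ⟨t - η', t + η', by linarith, by linarith, ?_, ?_⟩
  · rintro _ ⟨s, rfl⟩ hs
    obtain ⟨n, hn⟩ := h2 s t hs
    rw [abs_lt] at hn
    refine ⟨s - n * (2 * π), ⟨by linarith, by linarith⟩, ?_⟩
    have := h.add_int s (-n)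
    push_cast at this
    rw [← this]
    congr 1; ring
  · rintro _ ⟨s, hs, rfl⟩
    exact h1 s t (by rw [abs_lt]; constructor <;> linarith [hs.1, hs.2])

end IsLoop

/-- Complement of a closed ball. -/
lemma joined_outside_ball {c z w : ℂ} {r : ℝ} (hr : 0 < r) (hz : r < dist z c) (hw : r < dist w c) :
    JoinedIn (Metric.closedBall c r)ᶜ z w := by
  have h1 : IsPreconnected {y : ℂ | r < ‖y - c‖} := preconnected_outside c hr
  have h2 : (Metric.closedBall c r)ᶜ = {y : ℂ | r < ‖y - c‖} := by
    ext y; simp [dist_eq_norm]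
  have h3 : IsOpen (Metric.closedBall c r)ᶜ := Metric.isClosed_closedBall.isOpen_compl
  rw [h2] at h3 ⊢
  have hz' : z ∈ {y : ℂ | r < ‖y - c‖} := by
    rw [mem_ofPred_eq, ← dist_eq_norm]; exact hz
  have hw' : w ∈ {y : ℂ | r < ‖y - c‖} := by
    rw [mem_ofPred_eq, ← dist_eq_norm]; exact hw
  exact (h3.isConnected_iff_isPathConnected.1 ⟨⟨z, hz'⟩, h1⟩).joinedIn z hz' w hw'

/-- A path which starts in `D` and avoids the frontier of `D` stays in `D`. -/
lemma joinedIn_of_frontier {D X : Set ℂ} {z w : ℂ} (hz : z ∈ D)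
    (h : JoinedIn (frontier D ∪ X)ᶜ z w) : JoinedIn (D \ X) z w := by
  obtain ⟨γ, hγ⟩ := h
  have h1 : range γ ⊆ D := by
    refine subset_of_frontier (isPreconnected_range γ.continuous) ?_ ⟨z, ⟨0, γ.source⟩, hz⟩
    rw [disjoint_left]
    rintro _ hx ⟨t, rfl⟩
    exact hγ t (Or.inl hx)
  exact ⟨γ, fun t => ⟨h1 ⟨t, rfl⟩, fun hx => hγ t (Or.inr hx)⟩⟩

lemma frontier_disjoint_open {D : Set ℂ} (hD : IsOpen D) : Disjoint D (frontier D) := by
  rw [hD.frontier_eq]; exact disjoint_sdiff_self_right

/-- **Small sets do not separate far points of a Jordan domain.** -/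
theorem joined_of_small {ρ : ℝ → ℂ} (h : IsLoop ρ) {D : Set ℂ} (hD : IsOpen D)
    (hDc : IsPreconnected D) (hfr : frontier D = range ρ) {ε : ℝ} (hε : 0 < ε) :
    ∃ δ > 0, ∀ (c : ℂ) (K : Set ℂ), IsCompact K → K ⊆ Metric.closedBall c δ →
      ∀ z ∈ D, ∀ w ∈ D, ε < dist z c → ε < dist w c → JoinedIn (D \ K) z w := by
  obtain ⟨δ, hδ, harc⟩ := h.small_arc (show (0 : ℝ) < ε / 2 by positivity)
  set d := min (δ / 3) (ε / 3) with hd
  have hd0 : 0 < d := by positivity
  have e1 := min_le_left (δ / 3) (ε / 3)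
  have e2 := min_le_right (δ / 3) (ε / 3)
  refine ⟨d, hd0, fun c K hK hKc z hz w hw hzc hwc => ?_⟩
  apply joinedIn_of_frontier hz
  -- joined in the domain
  have hD1 : JoinedIn (range ρ)ᶜ z w := by
    have h1 : JoinedIn D z w := (hD.isConnected_iff_isPathConnected.1 ⟨⟨z, hz⟩, hDc⟩).joinedIn z hz w hw
    refine h1.mono fun x hx hx' => ?_
    rw [← hfr] at hx'
    exact disjoint_left.1 (frontier_disjoint_open hD) hx hx'
  rw [hfr]
  rcases (K ∩ range ρ).eq_empty_or_nonempty with he | ⟨x, hxK, hxρ⟩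
  · refine janiszewski h.isCompact_range hK ?_ hD1 ?_
    · rw [inter_comm, he]; exact isPreconnected_empty
    · exact (joined_outside_ball hd0 (by linarith) (by linarith)).mono (compl_subset_compl.2 hKc)
  · obtain ⟨a, b, hab, hba, hin, hsm⟩ := harc x hxρ
    have hxc : dist x c ≤ d := hKc hxK
    have hset : range ρ ∪ K = range ρ ∪ (K ∪ ρ '' Icc a b) := by
      ext y
      constructor
      · rintro (hy | hy)
        · exact Or.inl hy
        · exact Or.inr (Or.inl hy)
      · rintro (hy | hy | hy)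
        · exact Or.inl hy
        · exact Or.inr hy
        · exact Or.inl (image_subset_range _ _ hy)
    rw [hset]
    refine janiszewski h.isCompact_range (hK.union (h.arc_compact a b)) ?_ hD1 ?_
    · have : range ρ ∩ (K ∪ ρ '' Icc a b) = ρ '' Icc a b := by
        ext y
        constructor
        · rintro ⟨hy, hy' | hy'⟩
          · refine image_mono Ioo_subset_Icc_self (hin y hy ?_)
            have h3 : dist y c ≤ d := hKc hy'
            have := dist_triangle y c x
            rw [dist_comm c x] at this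
            linarith
          · exact hy'
        · intro hy; exact ⟨image_subset_range _ _ hy, Or.inr hy⟩
      rw [this]
      exact h.arc_preconnected a b
    · refine (joined_outside_ball (c := c) (r := ε) hε hzc hwc).mono ?_
      apply compl_subset_compl.2
      rintro y (hy | hy)
      · exact Metric.closedBall_subset_closedBall (by linarith) (hKc hy)
      · have h3 := hsm y hy
        have := dist_triangle y x c
        rw [Metric.mem_closedBall]
        linarith

/-- **Uniform local connectivity** of a Jordan domain: points close to each other are joined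
inside the domain near them. -/
theorem ulc {ρ : ℝ → ℂ} (h : IsLoop ρ) {D : Set ℂ} (hD : IsOpen D)
    (hDc : IsPreconnected D) (hfr : frontier D = range ρ) {ε : ℝ} (hε : 0 < ε) :
    ∃ δ > 0, ∀ z ∈ D, ∀ w ∈ D, dist z w < δ → JoinedIn (D ∩ Metric.ball z ε) z w := by
  obtain ⟨δ, hδ, harc⟩ := h.small_arc (show (0 : ℝ) < ε / 4 by positivity)
  set d := min (δ / 3) (ε / 4) with hd
  have hd0 : 0 < d := by positivity
  have e1 := min_le_left (δ / 3) (ε / 4)
  have e2 := min_le_right (δ / 3) (ε / 4)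
  refine ⟨d, hd0, fun z hz w hw hzw => ?_⟩
  have hjD : JoinedIn D z w := (hD.isConnected_iff_isPathConnected.1 ⟨⟨z, hz⟩, hDc⟩).joinedIn z hz w hw
  -- it is enough to avoid the sphere
  have key : JoinedIn (frontier D ∪ Metric.sphere z ε)ᶜ z w → JoinedIn (D ∩ Metric.ball z ε) z w := by
    rintro ⟨γ, hγ⟩
    have h1 : range γ ⊆ D := by
      refine subset_of_frontier (isPreconnected_range γ.continuous) ?_ ⟨z, ⟨0, γ.source⟩, hz⟩
      rw [disjoint_left]
      rintro _ hx ⟨t, rfl⟩
      exact hγ t (Or.inl hx)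
    have h2 : range γ ⊆ Metric.ball z ε := by
      refine subset_of_frontier (isPreconnected_range γ.continuous) ?_
        ⟨z, ⟨0, γ.source⟩, Metric.mem_ball_self hε⟩
      rw [disjoint_left]
      rintro _ hx ⟨t, rfl⟩
      rw [frontier_ball z hε.ne'] at hx
      exact hγ t (Or.inr hx)
    exact ⟨γ, fun t => ⟨h1 ⟨t, rfl⟩, h2 ⟨t, rfl⟩⟩⟩
  have hseg : segment ℝ z w ⊆ Metric.ball z d := by
    refine (convex_ball z d).segment_subset (Metric.mem_ball_self hd0) ?_
    rw [Metric.mem_ball, dist_comm]; exact hzw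
  have hjoinseg : ∀ X : Set ℂ, Disjoint (segment ℝ z w) X → JoinedIn Xᶜ z w := by
    intro X hX
    refine JoinedIn.of_segment_subset ?_
    intro y hy hy'
    exact disjoint_left.1 hX hy hy'
  have hsph : Disjoint (segment ℝ z w) (Metric.sphere z ε) := by
    rw [disjoint_left]
    intro y hy hy'
    have h1 := hseg hy
    rw [Metric.mem_ball] at h1
    rw [Metric.mem_sphere] at hy'
    linarith
  apply key
  rw [hfr]
  by_cases hne : ∃ x ∈ range ρ, dist x z < d
  · obtain ⟨x, hxρ, hxz⟩ := hne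
    obtain ⟨a, b, hab, hba, hin, hsm⟩ := harc x hxρ
    -- the complementary arc
    set A' := ρ '' Icc b (a + 2 * π) with hA'
    have hset : range ρ ∪ Metric.sphere z ε = range ρ ∪ (A' ∪ Metric.sphere z ε) := by
      ext y
      constructor
      · rintro (hy | hy)
        · exact Or.inl hy
        · exact Or.inr (Or.inr hy)
      · rintro (hy | hy | hy)
        · exact Or.inl hy
        · exact Or.inl (image_subset_range _ _ hy)
        · exact Or.inr hy
    rw [hset]
    refine janiszewski h.isCompact_range ((h.arc_compact _ _).union (isCompact_sphere z ε)) ?_ ?_ ?_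
    · have : range ρ ∩ (A' ∪ Metric.sphere z ε) = A' := by
        ext y
        constructor
        · rintro ⟨hy, hy' | hy'⟩
          · exact hy'
          · rw [h.range_eq_union hab.le hba.le] at hy
            rcases hy with hy | hy
            · exfalso
              have h1 := hsm y hy
              rw [Metric.mem_sphere] at hy'
              have := dist_triangle y x z
              linarith
            · exact hy
        · intro hy; exact ⟨image_subset_range _ _ hy, Or.inl hy⟩
      rw [this]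
      exact h.arc_preconnected _ _
    · refine hjD.mono fun y hy hy' => ?_
      rw [← hfr] at hy'
      exact disjoint_left.1 (frontier_disjoint_open hD) hy hy'
    · apply hjoinseg
      rw [disjoint_union_right]
      refine ⟨?_, hsph⟩
      rw [disjoint_left]
      intro y hy hy'
      have h1 := hseg hy
      rw [Metric.mem_ball] at h1
      have h2 : y ∈ ρ '' Ioo a b := by
        refine hin y (image_subset_range _ _ hy') ?_
        have := dist_triangle y z x
        rw [dist_comm z x] at this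
        linarith
      -- injectivity
      obtain ⟨s, hs, rfl⟩ := h2
      have h3 : ρ s ∈ ρ '' Icc a b ∩ A' := ⟨⟨s, Ioo_subset_Icc_self hs, rfl⟩, hy'⟩
      rw [hA', h.inter_arcs hab hba] at h3
      rcases h3 with h3 | h3
      · have := h.injOn hba (Ioo_subset_Icc_self hs) (left_mem_Icc.2 hab.le) h3
        exact hs.1.ne' this
      · have := h.injOn hba (Ioo_subset_Icc_self hs) (right_mem_Icc.2 hab.le) h3
        exact hs.2.ne this
  · push Not at hne
    apply hjoinseg
    rw [disjoint_union_right]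
    refine ⟨?_, hsph⟩
    rw [disjoint_left]
    intro y hy hy'
    have h1 := hseg hy
    rw [Metric.mem_ball] at h1
    exact absurd h1 (not_lt.2 (hne y hy'))

end Pool.Agent.H14.Jordan
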