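import Pool.Agent.H14.Jordan.Cross

set_option autoImplicit false
open Set Topology Filter Complex
open scoped Real

/-! The crosscut theorem: a crosscut of a Jordan domain (with a straight piece) splits the domain
into exactly two domains, bounded by the crosscut and one of the two arcs. -/

namespace Pool.Agent.H14.Jordan

/-! ### The logarithm changes by `2πi` across a segment -/

/-- The continuous logarithm of `(s - iε) / (s + iε)` along the line. -/
lemma log_line {x u : ℂ} (hu : ‖u‖ = 1) {ε r : ℝ} (hε : 0 < ε) (hr : 0 < r) :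
    let M : ℂ → ℂ := fun ζ => -(2 * ((log ((ζ - x) / u + ε * I)).im : ℂ)) * I
    ContinuousOn M {ζ | 0 ≤ ((ζ - x) / u).im} ∧
    (∀ s : ℝ, exp (M (x + s * u)) = qq (x + ε * I * u) (x - ε * I * u) (x + s * u)) ∧
    M (x + r * u) = log (qq (x + ε * I * u) (x - ε * I * u) (x + r * u)) ∧
    M (x - r * u) + 2 * π * I = log (qq (x + ε * I * u) (x - ε * I * u) (x - r * u)) := by
  intro M
  have hu0 : u ≠ 0 := by rintro rfl; simp at hu
  have hslit : ∀ ζ : ℂ, 0 ≤ ((ζ - x) / u).im → (ζ - x) / u + ε * I ∈ slitPlane := by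
    intro ζ hζ
    refine Or.inr ?_
    have : ((ζ - x) / u + ε * I).im = ((ζ - x) / u).im + ε := by simp
    rw [this]; positivity
  have hexp : ∀ s : ℝ, exp (M (x + s * u)) =
      qq (x + ε * I * u) (x - ε * I * u) (x + s * u) := by
    intro s
    have h1 : (x + s * u - x) / u = s := by rw [add_sub_cancel_left]; field_simp
    have hv : (s : ℂ) + ε * I ≠ 0 := by
      intro h0
      have := congrArg Complex.im h0
      simp at this
      linarith
    have h2 : M (x + s * u) = (starRingEnd ℂ) (log (s + ε * I)) - log (s + ε * I) := by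
      simp only [M, h1]
      apply Complex.ext <;> simp
      ring
    rw [h2, exp_sub, exp_conj, exp_log hv]
    unfold qq
    have h3 : (starRingEnd ℂ) ((s : ℂ) + ε * I) = s - ε * I := by
      simp [sub_eq_add_neg]
    rw [h3]
    have h4 : x + s * u - (x + ε * I * u) = (s - ε * I) * u := by ring
    have h5 : x + s * u - (x - ε * I * u) = (s + ε * I) * u := by ring
    rw [h4, h5, mul_div_mul_right _ _ hu0]
  refine ⟨?_, hexp, ?_, ?_⟩
  · have h1 : ContinuousOn (fun ζ : ℂ => log ((ζ - x) / u + ε * I)) {ζ | 0 ≤ ((ζ - x) / u).im} := by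
      refine ContinuousOn.clog (by fun_prop) ?_
      intro ζ hζ; exact hslit ζ hζ
    have h2 : ContinuousOn (fun ζ : ℂ => (((log ((ζ - x) / u + ε * I)).im : ℝ) : ℂ))
        {ζ | 0 ≤ ((ζ - x) / u).im} :=
      Complex.continuous_ofReal.comp_continuousOn (Complex.continuous_im.comp_continuousOn h1)
    exact ((continuousOn_const.mul h2).neg).mul continuousOn_const
  · rw [← hexp]
    have h1 : (x + r * u - x) / u = r := by rw [add_sub_cancel_left]; field_simp
    have harg : 0 < arg ((r : ℂ) + ε * I) ∧ arg ((r : ℂ) + ε * I) < π / 2 := by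
      constructor
      · have h0 : 0 ≤ arg ((r : ℂ) + ε * I) := by rw [arg_nonneg_iff]; simp [hε.le]
        refine lt_of_le_of_ne h0 fun hc => ?_
        rw [eq_comm, arg_eq_zero_iff] at hc
        simp at hc
        linarith [hc.2]
      · rw [arg_lt_pi_div_two_iff]
        left; simp [hr]
    have him : (M (x + r * u)).im = -(2 * arg ((r : ℂ) + ε * I)) := by
      simp only [M, h1, log_im]
      simp
    rw [log_exp]
    · rw [him]; linarith [harg.2]
    · rw [him]; linarith [harg.1, Real.pi_pos]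
  · have h1 : (x - r * u - x) / u = ((-r : ℝ) : ℂ) := by
      push_cast
      have : x - r * u - x = (-r) * u := by ring
      rw [this]; field_simp
    have harg : π / 2 < arg (((-r : ℝ) : ℂ) + ε * I) ∧ arg (((-r : ℝ) : ℂ) + ε * I) < π := by
      constructor
      · by_contra hc
        push Not at hc
        rw [arg_le_pi_div_two_iff] at hc
        rcases hc with hc | hc
        · simp at hc; linarith
        · simp at hc; linarith
      · refine lt_of_le_of_ne (arg_le_pi _) fun hc => ?_
        rw [arg_eq_pi_iff] at hc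
        simp at hc
        linarith [hc.2]
    have him : (M (x - r * u) + 2 * π * I).im = -(2 * arg (((-r : ℝ) : ℂ) + ε * I)) + 2 * π := by
      simp only [M, h1, log_im]
      simp
    have hex : exp (M (x - r * u) + 2 * π * I) =
        qq (x + ε * I * u) (x - ε * I * u) (x - r * u) := by
      rw [exp_periodic]
      have := hexp (-r)
      push_cast at this
      rw [neg_mul, ← sub_eq_add_neg] at this
      exact this
    rw [← hex, log_exp]
    · rw [him]; linarith [harg.2]
    · rw [him]; linarith [harg.1, Real.pi_pos]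


/-- The frontier of a component of `D \ K` lies in `frontier D ∪ K`. -/
lemma frontier_component_diff {D K : Set ℂ} (hD : IsOpen D) (hK : IsClosed K) (z : ℂ) :
    frontier (connectedComponentIn (D \ K) z) ⊆ frontier D ∪ K := by
  have h1 : D \ K = ((D \ K)ᶜ)ᶜ := (compl_compl _).symm
  have h2 : IsClosed (D \ K)ᶜ := (hD.sdiff hK).isClosed_compl
  have h3 : frontier (connectedComponentIn (D \ K) z) ⊆ (D \ K)ᶜ := by
    have := frontier_component h2 z
    rwa [← h1] at this
  intro x hx
  have h4 : x ∈ closure D := closure_mono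
    ((connectedComponentIn_subset _ _).trans sdiff_subset) (frontier_subset_closure hx)
  by_cases hxD : x ∈ D
  · right
    by_contra hxK
    exact h3 hx ⟨hxD, hxK⟩
  · left
    rw [hD.frontier_eq]
    exact ⟨h4, hxD⟩

namespace IsCross
variable {D : Set ℂ} {ρ : ℝ → ℂ} {a b : ℝ} {γ : ℝ → ℂ} (h : IsCross D ρ a b γ)
include h

/-- A set whose closure meets the interiors of both arcs cannot be a component of `D \ c`. -/
lemma not_both {V : Set ℂ} (hVc : IsPreconnected V) (hV : V ⊆ D \ γ '' Icc 0 1)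
    {s t : ℝ} (hs : s ∈ Ioo a b) (ht : t ∈ Ioo b (a + 2 * π)) (h1 : ρ s ∈ closure V)
    (h2 : ρ t ∈ closure V) : False := by
  obtain ⟨E, hEo, hEc, hED, hEρ, hEf, -⟩ := h.jd.exists_ext
  obtain ⟨e0, he0⟩ := hEc.nonempty
  have hLoop := h.jd.loop
  -- the two closed curves
  set c := γ '' Icc 0 1 with hc
  have hcc : IsCompact c := h.compact
  -- general step
  have step : ∀ (y : ℂ) (X : Set ℂ), y ∈ range ρ → y ∈ closure V → y ∉ X → IsClosed X →
      X ⊆ range ρ ∪ c → ∀ v ∈ V, JoinedIn Xᶜ v e0 := by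
    intro y X hyρ hyV hyX hXc hXs v hv
    obtain ⟨r, hr, hball⟩ := Metric.isOpen_iff.1 hXc.isOpen_compl y hyX
    have hyE : y ∈ closure E := by
      have : y ∈ frontier E := by rw [hEf]; exact hyρ
      exact this.1
    obtain ⟨v1, hv1b, hv1⟩ := mem_closure_iff.1 hyV _ Metric.isOpen_ball (Metric.mem_ball_self hr)
    obtain ⟨e1, he1b, he1⟩ := mem_closure_iff.1 hyE _ Metric.isOpen_ball (Metric.mem_ball_self hr)
    -- the union `V ∪ ball ∪ E` is preconnected
    have hpre : IsPreconnected (V ∪ Metric.ball y r ∪ E) := by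
      refine IsPreconnected.union e1 (Or.inr he1b) he1 ?_ hEc.isPreconnected
      exact IsPreconnected.union v1 hv1 hv1b hVc (convex_ball y r).isPreconnected
    have hsub : V ∪ Metric.ball y r ∪ E ⊆ Xᶜ := by
      rintro x ((hx | hx) | hx) hxX
      · rcases hXs hxX with h3 | h3
        · exact h.jd.notMem (hV hx).1 h3
        · exact (hV hx).2 h3
      · exact hball hx hxX
      · rcases hXs hxX with h3 | ⟨τ, hτ, rfl⟩
        · exact disjoint_left.1 hEρ hx h3
        · rcases eq_or_lt_of_le hτ.1 with h4 | h4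
          · rw [← h4, h.h0] at hx
            exact disjoint_left.1 hEρ hx ⟨a, rfl⟩
          rcases eq_or_lt_of_le hτ.2 with h5 | h5
          · rw [h5, h.h1] at hx
            exact disjoint_left.1 hEρ hx ⟨b, rfl⟩
          exact disjoint_left.1 hED hx (h.mem τ ⟨h4, h5⟩)
    have hop : IsOpen (connectedComponentIn Xᶜ v) := hXc.isOpen_compl.connectedComponentIn
    have h3 := hpre.subset_connectedComponentIn (Or.inl (Or.inl hv)) hsub
    have hvX : v ∈ Xᶜ := hsub (Or.inl (Or.inl hv))
    have h4 : IsConnected (connectedComponentIn Xᶜ v) :=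
      isConnected_connectedComponentIn_iff.2 hvX
    exact ((hop.isConnected_iff_isPathConnected.1 h4).joinedIn v (mem_connectedComponentIn hvX) e0
      (h3 (Or.inr he0))).mono (connectedComponentIn_subset _ _)
  obtain ⟨v0, -, hv0⟩ := mem_closure_iff.1 h1 univ isOpen_univ (mem_univ _)
  have hA : IsCompact (ρ '' Icc a b) := hLoop.arc_compact _ _
  have hB : IsCompact (ρ '' Icc b (a + 2 * π)) := hLoop.arc_compact _ _
  have hends : {ρ a, ρ b} ⊆ c := by
    rintro x (rfl | rfl)
    · exact ⟨0, ⟨le_rfl, zero_le_one⟩, h.h0⟩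
    · exact ⟨1, ⟨zero_le_one, le_rfl⟩, h.h1⟩
  have hinter := hLoop.inter_arcs h.hab h.hba
  have hcρ : ∀ x ∈ c, x ∈ range ρ → x ∈ ({ρ a, ρ b} : Set ℂ) := by
    rintro _ ⟨τ, hτ, rfl⟩ hx
    rcases eq_or_lt_of_le hτ.1 with h4 | h4
    · rw [← h4, h.h0]; exact Or.inl rfl
    rcases eq_or_lt_of_le hτ.2 with h5 | h5
    · rw [h5, h.h1]; exact Or.inr rfl
    exact absurd hx (h.notMem_range ⟨h4, h5⟩)
  -- `ρ s` is not on `c ∪ B`, `ρ t` is not on `c ∪ A`
  have hsB : ρ s ∉ ρ '' Icc b (a + 2 * π) := by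
    intro hx
    have h3 : ρ s ∈ ρ '' Icc a b ∩ ρ '' Icc b (a + 2 * π) :=
      ⟨⟨s, Ioo_subset_Icc_self hs, rfl⟩, hx⟩
    rw [hinter] at h3
    rcases h3 with h3 | h3
    · exact hs.1.ne' (hLoop.injOn h.hba (Ioo_subset_Icc_self hs) (left_mem_Icc.2 h.hab.le) h3)
    · exact hs.2.ne (hLoop.injOn h.hba (Ioo_subset_Icc_self hs) (right_mem_Icc.2 h.hab.le) h3)
  have hba' : a + 2 * π < b + 2 * π := by linarith [h.hab]
  have htA : ρ t ∉ ρ '' Icc a b := by
    intro hx
    have h3 : ρ t ∈ ρ '' Icc a b ∩ ρ '' Icc b (a + 2 * π) :=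
      ⟨hx, ⟨t, Ioo_subset_Icc_self ht, rfl⟩⟩
    rw [hinter] at h3
    rcases h3 with h3 | h3
    · rw [← hLoop.add_two_pi a] at h3
      exact ht.2.ne (hLoop.injOn hba' (Ioo_subset_Icc_self ht) (right_mem_Icc.2 h.hba.le) h3)
    · exact ht.1.ne' (hLoop.injOn hba' (Ioo_subset_Icc_self ht) (left_mem_Icc.2 h.hba.le) h3)
  have hsc : ρ s ∉ c := fun hx => by
    have h3 := hcρ _ hx ⟨s, rfl⟩
    rw [← hinter] at h3
    exact hsB h3.2
  have htc : ρ t ∉ c := fun hx => by
    have h3 := hcρ _ hx ⟨t, rfl⟩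
    rw [← hinter] at h3
    exact htA h3.1
  have j1 := step (ρ s) (c ∪ ρ '' Icc b (a + 2 * π)) ⟨s, rfl⟩ h1
    (fun hx => hx.elim hsc hsB) (hcc.isClosed.union hB.isClosed)
    (union_subset subset_union_right ((image_subset_range _ _).trans subset_union_left)) v0 hv0
  have j2 := step (ρ t) (c ∪ ρ '' Icc a b) ⟨t, rfl⟩ h2
    (fun hx => hx.elim htc htA) (hcc.isClosed.union hA.isClosed)
    (union_subset subset_union_right ((image_subset_range _ _).trans subset_union_left)) v0 hv0
  have hint : (c ∪ ρ '' Icc b (a + 2 * π)) ∩ (c ∪ ρ '' Icc a b) = c := by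
    rw [← union_inter_distrib_left, inter_comm, hinter, union_eq_left]
    exact hends
  have j3 := janiszewski (hcc.union hB) (hcc.union hA)
    (by rw [hint]; exact h.piece_preconnected le_rfl le_rfl) j1 j2
  have hun : (c ∪ ρ '' Icc b (a + 2 * π)) ∪ (c ∪ ρ '' Icc a b) = range ρ ∪ c := by
    rw [hLoop.range_eq_union h.hab.le h.hba.le]
    ext x; simp only [mem_union]; tauto
  rw [hun] at j3
  exact h.jd.not_joined (hV hv0).1 (disjoint_left.1 hED he0) c j3

end IsCross

/-- A straight piece of a crosscut. -/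
structure IsStraight (γ : ℝ → ℂ) (t1 t2 : ℝ) : Prop where
  pos : 0 < t1
  lt : t1 < t2
  lt_one : t2 < 1
  seg : γ '' Icc t1 t2 = segment ℝ (γ t1) (γ t2)

end Pool.Agent.H14.Jordan
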