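import Pool.Agent.H14.Jordan.Log

set_option autoImplicit false
open Set Topology Filter Complex
open scoped unitInterval

/-! Sets on which every nonvanishing continuous function has a continuous logarithm (contractible
sets, arcs, trees of such sets). Compact sets of this kind do not separate the plane. -/

namespace Pool.Agent.H14.Jordan

/-- Every nonvanishing continuous function on a contractible space has a continuous logarithm. -/
theorem exists_log_contractible {X : Type*} [TopologicalSpace X] [ContractibleSpace X] (f : C(X, ℂ))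
    (h0 : ∀ x, f x ≠ 0) : ∃ L : C(X, ℂ), ∀ x, exp (L x) = f x := by
  obtain ⟨y, ⟨F⟩⟩ := id_nullhomotopic X
  -- `F : id ≃ const y`
  let H : C(I × X, {z : ℂ // z ≠ 0}) :=
    ⟨fun tx => ⟨f (F.symm tx), h0 _⟩, by fun_prop⟩
  let c : C(X, ℂ) := ContinuousMap.const X (log (f y))
  have hH : ∀ a, H (0, a) = (fun z : ℂ => (⟨exp z, exp_ne_zero z⟩ : {z : ℂ // z ≠ 0})) (c a) := by
    intro a
    apply Subtype.ext
    simp only [H, c, ContinuousMap.coe_mk, ContinuousMap.const_apply]
    rw [exp_log (h0 y)]
    simp
  let G := Complex.isCoveringMap_exp.liftHomotopy H c hH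
  refine ⟨⟨fun x => G (1, x), by fun_prop⟩, fun x => ?_⟩
  have h1 := congrFun (Complex.isCoveringMap_exp.liftHomotopy_lifts H c hH) (1, x)
  have h2 := congrArg Subtype.val h1
  simpa [H, G] using h2

/-- Every nonvanishing continuous function on `K` has a continuous logarithm. -/
def Triv (K : Set ℂ) : Prop := ∀ f : ℂ → ℂ, ContinuousOn f K → (∀ x ∈ K, f x ≠ 0) → HasLog K f

lemma Triv.of_forall {K : Set ℂ}
    (h : ∀ f : C(K, ℂ), (∀ x, f x ≠ 0) → ∃ L : C(K, ℂ), ∀ x, exp (L x) = f x) : Triv K := by
  classical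
  intro f hf h0
  obtain ⟨L, hL⟩ := h ⟨K.domRestrict f, continuousOn_iff_continuous_domRestrict.1 hf⟩
    (fun x => h0 x.1 x.2)
  refine ⟨fun x => if hx : x ∈ K then L ⟨x, hx⟩ else 0, ?_, ?_⟩
  · rw [continuousOn_iff_continuous_domRestrict]
    have : K.domRestrict (fun x => if hx : x ∈ K then L ⟨x, hx⟩ else 0) = L := by
      ext ⟨x, hx⟩
      simp [hx]
    rw [this]
    exact L.continuous
  · intro x hx
    simp only [dif_pos hx]
    exact hL ⟨x, hx⟩

lemma Triv.of_contractible (K : Set ℂ) [ContractibleSpace K] : Triv K :=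
  Triv.of_forall fun f h0 => exists_log_contractible f h0

lemma Triv.empty : Triv ∅ := fun f _ _ => ⟨f, continuousOn_empty _, fun _ hx => hx.elim⟩

lemma Triv.of_convex {K : Set ℂ} (h : Convex ℝ K) : Triv K := by
  rcases K.eq_empty_or_nonempty with rfl | hne
  · exact Triv.empty
  · have := h.contractibleSpace hne
    exact Triv.of_contractible K

lemma Triv.singleton (x : ℂ) : Triv {x} := Triv.of_convex (convex_singleton x)

lemma Triv.segment (x y : ℂ) : Triv (segment ℝ x y) := Triv.of_convex (convex_segment x y)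

/-- Homeomorphic images. -/
lemma Triv.image {E : Type*} [TopologicalSpace E] {S : Set E} (hS : IsCompact S)
    [ContractibleSpace S] {γ : E → ℂ} (hc : ContinuousOn γ S) (hi : InjOn γ S) :
    Triv (γ '' S) := by
  have : CompactSpace S := isCompact_iff_compactSpace.1 hS
  let e : S ≃ γ '' S := Equiv.Set.imageOfInjOn γ S hi
  have he : Continuous e := by
    refine Continuous.subtype_mk ?_ _
    exact hc.comp_continuous continuous_subtype_val Subtype.prop
  let h : S ≃ₜ γ '' S := Continuous.homeoOfEquivCompactToT2 (f := e) he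
  have : ContractibleSpace (γ '' S) := h.symm.contractibleSpace
  exact Triv.of_contractible _

/-- Arcs. -/
lemma Triv.arc {γ : ℝ → ℂ} {a b : ℝ} (hc : ContinuousOn γ (Icc a b)) (hi : InjOn γ (Icc a b)) :
    Triv (γ '' Icc a b) := by
  rcases (Icc a b).eq_empty_or_nonempty with h | h
  · rw [h, image_empty]; exact Triv.empty
  · have := (convex_Icc a b).contractibleSpace h
    exact Triv.image isCompact_Icc hc hi

lemma Triv.union {A B : Set ℂ} (h1 : Triv A) (h2 : Triv B) (hA : IsClosed A) (hB : IsClosed B)
    (hAB : IsPreconnected (A ∩ B)) : Triv (A ∪ B) := fun f hf h0 =>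
  HasLog.union hA hB hAB (h1 f (hf.mono subset_union_left) fun _ hx => h0 _ (Or.inl hx))
    (h2 f (hf.mono subset_union_right) fun _ hx => h0 _ (Or.inr hx))

/-- A compact set of this kind does not separate the plane. -/
theorem Triv.joined {K : Set ℂ} (h : Triv K) (hK : IsCompact K) {z w : ℂ} (hz : z ∉ K)
    (hw : w ∉ K) : JoinedIn Kᶜ z w := by
  refine joined_of_hasLog hK hz hw (h _ ?_ ?_)
  · unfold qq
    exact ContinuousOn.div (by fun_prop) (by fun_prop)
      fun x hx => sub_ne_zero.2 fun h => hw (h ▸ hx)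
  · intro x hx
    unfold qq
    exact div_ne_zero (sub_ne_zero.2 fun h => hz (h ▸ hx)) (sub_ne_zero.2 fun h => hw (h ▸ hx))

theorem Triv.isPathConnected_compl {K : Set ℂ} (h : Triv K) (hK : IsCompact K) :
    IsPathConnected Kᶜ := by
  obtain ⟨r, hr⟩ := hK.isBounded.subset_closedBall 0
  have hx : ((max r 0 + 1 : ℝ) : ℂ) ∉ K := by
    intro hx
    have h1 := hr hx
    rw [Metric.mem_closedBall, dist_zero_right, norm_real, Real.norm_eq_abs,
      abs_of_pos (by positivity)] at h1
    have := le_max_left r 0
    linarith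
  exact ⟨_, hx, fun {_} hy => h.joined hK hx hy⟩

end Pool.Agent.H14.Jordan
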